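import Mathlib

/-!
# Gauges, Hausdorff measures, strong measure zero: definitions
-/

set_option autoImplicit false

open Set Filter Topology
open scoped ENNReal NNReal

namespace Pool.Agent.H507_B

/-- Gauge functions (only the values on `[0, ∞)` matter). -/
def Gauge (φ : ℝ → ℝ) : Prop := MonotoneOn φ (Ici 0) ∧ φ 0 = 0 ∧ ∀ t > 0, 0 < φ t

/-- `φ(t)/t → 0` as `t → 0+`. -/
def Superlinear (φ : ℝ → ℝ) : Prop := Tendsto (fun t => φ t / t) (𝓝[>] 0) (𝓝 0)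

/-- The infimum of `∑ φ(diam U i)` over the countable covers of `E` by sets of diameter `< δ`. -/
noncomputable def content (φ : ℝ → ℝ) {W : Type*} [PseudoEMetricSpace W] (δ : ℝ) (E : Set W) : ℝ≥0∞ :=
  ⨅ (U : ℕ → Set W) (_ : E ⊆ ⋃ i, U i) (_ : ∀ i, Metric.ediam (U i) < ENNReal.ofReal δ),
    ∑' i, ENNReal.ofReal (φ (Metric.ediam (U i)).toReal)

/-- The Hausdorff measure with gauge `φ`. -/
noncomputable def H (φ : ℝ → ℝ) {W : Type*} [PseudoEMetricSpace W] (E : Set W) : ℝ≥0∞ :=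
  ⨆ (δ : ℝ) (_ : 0 < δ), content φ δ E

/-- Strong measure zero in a metric space. -/
def SMZ {Z : Type*} [PseudoEMetricSpace Z] (A : Set Z) : Prop :=
  ∀ ε : ℕ → ℝ, (∀ n, 0 < ε n) → ∃ B : ℕ → Set Z,
    (∀ n, Metric.ediam (B n) ≤ ENNReal.ofReal (ε n)) ∧ A ⊆ ⋃ n, B n

end Pool.Agent.H507_B
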