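import Mathlib
import Pool.Agent.H507_B.Defs

/-!
# Lines in the plane
-/

set_option autoImplicit false

open Set Filter Topology
open scoped ENNReal NNReal

namespace Pool.Agent.H507_B

/-- The Euclidean plane. -/
abbrev Plane : Type := EuclideanSpace ℝ (Fin 2)

theorem coord_le (w w' : Plane) (i : Fin 2) : |w i - w' i| ≤ dist w w' := by
  rw [EuclideanSpace.dist_eq]
  apply Real.le_sqrt_of_sq_le
  have h : |w i - w' i| ^ 2 = dist (w i) (w' i) ^ 2 := by rw [Real.dist_eq]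
  rw [h]
  exact Finset.single_le_sum (f := fun i => dist (w i) (w' i) ^ 2) (fun j _ => sq_nonneg _)
    (Finset.mem_univ i)

/-- Separated lines are close to each other only on short segments. PROOF. Let `C = n + 1`. `z = (a, b)`, `z' = (a', b')` with
`max |a - a'| |b - b'| > ρ` (the metric of `ℝ × ℝ` is the sup metric, `Prod.dist_eq`), all `|a|, |b|, |a'|, |b'| ≤ n`. If `w = (x, a x + b)`,
`|x| ≤ n`, and `w' = (x', a' x' + b')` have distance `≤ r`, then `|x - x'| ≤ r`, `|a x + b - a' x' - b'| ≤ r` (coordinates, `|w i - w' i| ≤ dist w w'`,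
e.g. `EuclideanSpace.dist_eq` / `PiLp.norm_apply_le`), so `|(a - a') x + (b - b')| ≤ (1 + n) r = C r`. Case 1: `|a - a'| < ρ / (2 C)`: then
`|b - b'| > ρ` and `|(a - a') x| ≤ ρ / 2`, so `C r ≥ ρ / 2`; excluded if `r < ρ / (2 C)`: the set is empty. Case 2: `|a - a'| ≥ ρ / (2 C)`: two points
`w, v` of the set satisfy `|(a - a')(w 0 - v 0)| ≤ 2 C r`, so `|w 0 - v 0| ≤ 4 C² r / ρ`, `|w 1 - v 1| = |a| |w 0 - v 0| ≤ n |w 0 - v 0|`, and
`dist w v ≤ |w 0 - v 0| + |w 1 - v 1| ≤ C * 4 C² r / ρ`. So `r := min (ρ / (4 C)) (η ρ / (4 C³))` works (`r > 0`). -/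
theorem line_sep (n : ℕ) (ρ : ℝ) (hρ : 0 < ρ) (η : ℝ) (hη : 0 < η) : ∃ r > 0, ∀ z z' : ℝ × ℝ,
    |z.1| ≤ n → |z.2| ≤ n → |z'.1| ≤ n → |z'.2| ≤ n → ρ < dist z z' →
    Metric.ediam ({w : Plane | w 1 = z.1 * w 0 + z.2 ∧ |w 0| ≤ n} ∩
      {w | ∃ w' ∈ {w : Plane | w 1 = z'.1 * w 0 + z'.2 ∧ |w 0| ≤ n}, edist w w' ≤ ENNReal.ofReal r}) ≤ ENNReal.ofReal η := by
  obtain ⟨C, hC⟩ : ∃ C : ℝ, C = n + 1 := ⟨_, rfl⟩
  have hn0 : (0 : ℝ) ≤ n := Nat.cast_nonneg n
  have hC1 : 1 ≤ C := by rw [hC]; linarith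
  have hC0 : 0 < C := by linarith
  obtain ⟨r, hr⟩ : ∃ r : ℝ, r = min (ρ / (4 * C)) (η * ρ / (4 * C ^ 3)) := ⟨_, rfl⟩
  have hr0 : 0 < r := by rw [hr]; exact lt_min (by positivity) (by positivity)
  have hr1 : C * r ≤ ρ / 4 := by
    have h1 : r ≤ ρ / (4 * C) := by rw [hr]; exact min_le_left _ _
    calc C * r ≤ C * (ρ / (4 * C)) := mul_le_mul_of_nonneg_left h1 hC0.le
      _ = ρ / 4 := by field_simp
  have hr2 : 4 * C ^ 3 * r ≤ η * ρ := by
    have h1 : r ≤ η * ρ / (4 * C ^ 3) := by rw [hr]; exact min_le_right _ _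
    calc 4 * C ^ 3 * r ≤ 4 * C ^ 3 * (η * ρ / (4 * C ^ 3)) :=
          mul_le_mul_of_nonneg_left h1 (by positivity)
      _ = η * ρ := by field_simp
  refine ⟨r, hr0, ?_⟩
  rintro ⟨a, b⟩ ⟨a', b'⟩ ha hb ha' hb' hd
  simp only at ha hb ha' hb'
  rw [Prod.dist_eq] at hd
  simp only [Real.dist_eq] at hd
  -- the key estimate
  have key : ∀ w : Plane, w ∈ ({w : Plane | w 1 = a * w 0 + b ∧ |w 0| ≤ n} ∩
      {w | ∃ w' ∈ {w : Plane | w 1 = a' * w 0 + b' ∧ |w 0| ≤ n}, edist w w' ≤ ENNReal.ofReal r}) →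
      |(a - a') * w 0 + (b - b')| ≤ C * r := by
    rintro w ⟨⟨h1, h2⟩, w', ⟨h3, h4⟩, h5⟩
    rw [edist_dist, ENNReal.ofReal_le_ofReal_iff hr0.le] at h5
    have e0 := (coord_le w w' 0).trans h5
    have e1 := (coord_le w w' 1).trans h5
    have e : (a - a') * w 0 + (b - b') = (w 1 - w' 1) - a' * (w 0 - w' 0) := by
      rw [h1, h3]; ring
    rw [e]
    calc |(w 1 - w' 1) - a' * (w 0 - w' 0)| ≤ |w 1 - w' 1| + |a' * (w 0 - w' 0)| := abs_sub _ _
      _ ≤ r + n * r := by
          rw [abs_mul]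
          exact add_le_add e1 (mul_le_mul ha' e0 (abs_nonneg _) hn0)
      _ = C * r := by rw [hC]; ring
  apply Metric.ediam_le
  intro w hw v hv
  have kw := key w hw
  have kv := key v hv
  obtain ⟨⟨h1, h2⟩, -⟩ := hw
  obtain ⟨⟨h3, h4⟩, -⟩ := hv
  rw [edist_dist]
  apply ENNReal.ofReal_le_ofReal
  rcases lt_or_ge |a - a'| (ρ / (2 * C)) with hc | hc
  · exfalso
    have hC2 : ρ / (2 * C) ≤ ρ := by
      rw [div_le_iff₀ (by positivity)]
      nlinarith
    have hb2 : ρ < |b - b'| := by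
      rcases lt_max_iff.1 hd with h | h
      · linarith
      · exact h
    have e1 : |(a - a') * w 0| ≤ ρ / 2 := by
      rw [abs_mul]
      calc |a - a'| * |w 0| ≤ ρ / (2 * C) * n := mul_le_mul hc.le h2 (abs_nonneg _) (by positivity)
        _ ≤ ρ / (2 * C) * C := mul_le_mul_of_nonneg_left (by rw [hC]; linarith) (by positivity)
        _ = ρ / 2 := by field_simp
    have e2 : |b - b'| ≤ |(a - a') * w 0 + (b - b')| + |(a - a') * w 0| := by
      have : b - b' = ((a - a') * w 0 + (b - b')) - (a - a') * w 0 := by ring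
      calc |b - b'| = |((a - a') * w 0 + (b - b')) - (a - a') * w 0| := by rw [← this]
        _ ≤ _ := abs_sub _ _
    linarith
  · have e1 : |(a - a') * (w 0 - v 0)| ≤ 2 * C * r := by
      have : (a - a') * (w 0 - v 0) = ((a - a') * w 0 + (b - b')) - ((a - a') * v 0 + (b - b')) := by
        ring
      rw [this]
      calc _ ≤ _ := abs_sub _ _
        _ ≤ 2 * C * r := by linarith
    rw [abs_mul] at e1
    have e2 : ρ / (2 * C) * |w 0 - v 0| ≤ 2 * C * r :=
      (mul_le_mul_of_nonneg_right hc (abs_nonneg _)).trans e1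
    have e3 : ρ * |w 0 - v 0| ≤ 4 * C ^ 2 * r := by
      have h5 := mul_le_mul_of_nonneg_left e2 (by positivity : (0 : ℝ) ≤ 2 * C)
      have h6 : 2 * C * (ρ / (2 * C) * |w 0 - v 0|) = ρ * |w 0 - v 0| := by field_simp
      rw [h6] at h5
      linarith
    have e4 : |w 1 - v 1| ≤ n * |w 0 - v 0| := by
      have : w 1 - v 1 = a * (w 0 - v 0) := by rw [h1, h3]; ring
      rw [this, abs_mul]
      exact mul_le_mul_of_nonneg_right ha (abs_nonneg _)
    have e5 : dist w v ≤ |w 0 - v 0| + |w 1 - v 1| := by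
      rw [EuclideanSpace.dist_eq, Fin.sum_univ_two, Real.dist_eq, Real.dist_eq]
      apply Real.sqrt_le_iff.2
      constructor
      · positivity
      · nlinarith [abs_nonneg (w 0 - v 0), abs_nonneg (w 1 - v 1),
          mul_nonneg (abs_nonneg (w 0 - v 0)) (abs_nonneg (w 1 - v 1))]
    have e6 : dist w v ≤ C * |w 0 - v 0| := by
      rw [hC]
      linarith
    have e7 : ρ * (C * |w 0 - v 0|) ≤ ρ * η := by
      have h5 := mul_le_mul_of_nonneg_left e3 hC0.le
      linarith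
    exact e6.trans (le_of_mul_le_mul_left e7 hρ)


/-- PROOF. For `δ > 0` and `N` with `L / N < δ` cover `[a, a + L]` (and its image under the `K`-Lipschitz map `g`) by the images of
the `N` intervals of length `L / N`; the images have diameter `≤ K * L / N` (`LipschitzWith.ediam_image_le` or similar), choose `N` with
`K * L / N < δ`; the sum of diameters is `≤ K * L`. So `content id δ ≤ K * L` for every `δ`. In the definition the cover is indexed by `ℕ`: use
`∅` for the indices `≥ N`. -/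
theorem H_image_le (g : ℝ → Plane) (K : ℝ≥0) (hg : LipschitzWith K g) (a : ℝ) (L : ℝ) (hL : 0 < L) :
    H id (g '' Icc a (a + L)) < ∞ := by
  have key : H id (g '' Icc a (a + L)) ≤ ENNReal.ofReal ((K : ℝ) * L) := by
    unfold H
    refine iSup₂_le fun δ hδ => ?_
    obtain ⟨M, hM⟩ := exists_nat_gt ((K : ℝ) * L / δ)
    have hK0 : (0 : ℝ) ≤ K := K.2
    have hKL : 0 ≤ (K : ℝ) * L / δ := by positivity
    have hM0 : (0 : ℝ) < M := lt_of_le_of_lt hKL hM
    have hM1 : 0 < M := by exact_mod_cast hM0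
    set s : ℝ := L / M with hs
    have hs0 : 0 < s := div_pos hL hM0
    have hMs : (M : ℝ) * s = L := by
      rw [hs]; field_simp
    have hKs : (K : ℝ) * s < δ := by
      have h1 : (K : ℝ) * s = (K : ℝ) * L / M := by rw [hs]; ring
      rw [h1, div_lt_iff₀ hM0]
      have h2 := (div_lt_iff₀ hδ).1 hM
      linarith
    let U : ℕ → Set Plane := fun i =>
      if i < M then g '' Icc (a + i * s) (a + i * s + s) else ∅
    have hU1 : ∀ i, Metric.ediam (U i) ≤ ENNReal.ofReal ((K : ℝ) * s) := by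
      intro i
      by_cases hi : i < M
      · have h1 : U i = g '' Icc (a + i * s) (a + i * s + s) := if_pos hi
        rw [h1]
        refine (hg.ediam_image_le _).trans ?_
        rw [Real.ediam_Icc]
        have h2 : a + i * s + s - (a + i * s) = s := by ring
        rw [h2, ENNReal.ofReal_mul hK0, ENNReal.ofReal_coe_nnreal]
      · have h1 : U i = ∅ := if_neg hi
        rw [h1]
        simp
    have hcov : g '' Icc a (a + L) ⊆ ⋃ i, U i := by
      rintro _ ⟨x, ⟨hx1, hx2⟩, rfl⟩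
      rw [mem_iUnion]
      set k : ℕ := ⌊(x - a) / s⌋₊ with hk
      have hnn : 0 ≤ (x - a) / s := div_nonneg (by linarith) hs0.le
      have hk1 : (k : ℝ) ≤ (x - a) / s := Nat.floor_le hnn
      have hk2 : (x - a) / s < k + 1 := Nat.lt_floor_add_one _
      rw [le_div_iff₀ hs0] at hk1
      rw [div_lt_iff₀ hs0] at hk2
      by_cases hkM : k < M
      · refine ⟨k, ?_⟩
        have h1 : U k = g '' Icc (a + k * s) (a + k * s + s) := if_pos hkM
        rw [h1]
        exact ⟨x, ⟨by linarith, by nlinarith⟩, rfl⟩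
      · push Not at hkM
        have hkM' : (M : ℝ) ≤ k := by exact_mod_cast hkM
        have h3 : (M : ℝ) * s ≤ k * s := mul_le_mul_of_nonneg_right hkM' hs0.le
        have hx : x = a + L := by linarith
        obtain ⟨m, rfl⟩ : ∃ m, M = m + 1 := ⟨M - 1, by omega⟩
        refine ⟨m, ?_⟩
        have h1 : U m = g '' Icc (a + m * s) (a + m * s + s) := if_pos (by omega)
        rw [h1]
        have h4 : ((m : ℝ) + 1) * s = L := by
          have := hMs
          push_cast at this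
          exact this
        exact ⟨x, ⟨by nlinarith, by nlinarith⟩, rfl⟩
    have hdiam : ∀ i, Metric.ediam (U i) < ENNReal.ofReal δ := fun i =>
      lt_of_le_of_lt (hU1 i) ((ENNReal.ofReal_lt_ofReal_iff hδ).2 hKs)
    have hsum : ∑' i, ENNReal.ofReal (id (Metric.ediam (U i)).toReal) ≤
        ENNReal.ofReal ((K : ℝ) * L) := by
      have h1 : ∑' i, ENNReal.ofReal (id (Metric.ediam (U i)).toReal) =
          ∑ i ∈ Finset.range M, ENNReal.ofReal (id (Metric.ediam (U i)).toReal) := by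
        apply tsum_eq_sum
        intro i hi
        have hi' : ¬ i < M := by simpa using hi
        have h1 : U i = ∅ := if_neg hi'
        rw [h1]
        simp
      rw [h1]
      have h2 : ∀ i ∈ Finset.range M, ENNReal.ofReal (id (Metric.ediam (U i)).toReal) ≤
          ENNReal.ofReal ((K : ℝ) * s) := fun i _ =>
        (ENNReal.ofReal_toReal_le).trans (hU1 i)
      refine (Finset.sum_le_sum h2).trans ?_
      rw [Finset.sum_const, Finset.card_range, nsmul_eq_mul]
      have h3 : ((M : ℕ) : ℝ≥0∞) = ENNReal.ofReal (M : ℝ) := by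
        rw [ENNReal.ofReal_natCast]
      rw [h3, ← ENNReal.ofReal_mul hM0.le]
      apply ENNReal.ofReal_le_ofReal
      have : (M : ℝ) * ((K : ℝ) * s) = (K : ℝ) * (M * s) := by ring
      rw [this, hMs]
    unfold content
    exact iInf_le_of_le U (iInf_le_of_le hcov (iInf_le_of_le hdiam hsum))
  exact lt_of_le_of_lt key ENNReal.ofReal_lt_top

/-- PROOF. A line is the image of `ℝ` under a Lipschitz map (`x ↦ (x, a x + b)`, i.e. `!₂[x, a * x + b]`, or `y ↦ !₂[x, y]`), and `ℝ` is the union of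
the intervals `[n, n + 1]`, `n : ℤ` (enumerated by `ℕ`). -/
theorem line_sigma_finite (ℓ : Set Plane) (hℓ : (∃ a b : ℝ, ℓ = {w | w 1 = a * w 0 + b}) ∨ ∃ x : ℝ, ℓ = {w | w 0 = x}) :
    ∃ F : ℕ → Set Plane, ℓ ⊆ ⋃ n, F n ∧ ∀ n, H id (F n) < ∞ := by
  have main : ∀ (g : ℝ → Plane) (K : ℝ≥0), LipschitzWith K g → (∀ w ∈ ℓ, ∃ t, g t = w) →
      ∃ F : ℕ → Set Plane, ℓ ⊆ ⋃ n, F n ∧ ∀ n, H id (F n) < ∞ := by
    intro g K hg hs
    obtain ⟨e, he⟩ := exists_surjective_nat ℤ
    refine ⟨fun n => g '' Icc ((e n : ℤ) : ℝ) (((e n : ℤ) : ℝ) + 1), ?_, fun n =>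
      H_image_le g K hg _ 1 one_pos⟩
    intro w hw
    obtain ⟨t, rfl⟩ := hs w hw
    obtain ⟨n, hn⟩ := he ⌊t⌋
    rw [mem_iUnion]
    refine ⟨n, t, ⟨?_, ?_⟩, rfl⟩
    · rw [hn]; exact Int.floor_le t
    · rw [hn]; exact (Int.lt_floor_add_one t).le
  have lip : ∀ (u v : Plane), ∃ K : ℝ≥0, LipschitzWith K (fun t : ℝ => t • u + v) := by
    intro u v
    refine ⟨‖u‖₊, LipschitzWith.of_dist_le_mul fun x y => ?_⟩
    rw [dist_eq_norm]
    have h1 : x • u + v - (y • u + v) = (x - y) • u := by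
      rw [sub_smul]; abel
    rw [h1, norm_smul, Real.dist_eq, mul_comm, Real.norm_eq_abs, coe_nnnorm]
  rcases hℓ with ⟨a, b, rfl⟩ | ⟨x, rfl⟩
  · obtain ⟨K, hK⟩ := lip !₂[1, a] !₂[0, b]
    refine main _ K hK fun w hw => ⟨w 0, ?_⟩
    have hw' : w 1 = a * w 0 + b := hw
    ext i
    fin_cases i
    · simp
    · simp [hw', mul_comm]
  · obtain ⟨K, hK⟩ := lip !₂[0, 1] !₂[x, 0]
    refine main _ K hK fun w hw => ⟨w 1, ?_⟩
    have hw' : w 0 = x := hw
    ext i
    fin_cases i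
    · simp [hw']
    · simp

end Pool.Agent.H507_B
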