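import Mathlib
import Pool.Agent.H507_B.Defs

/-!
# Covers of prescribed sizes
-/

set_option autoImplicit false

open Set Filter Topology
open scoped ENNReal NNReal

namespace Pool.Agent.H507_B

/-- PROOF. Put `M k := ∑ i ∈ Finset.range k, m i`. Each `n` with `M k ≤ n < M (k+1)` gets the `(n - M k)`-th point of `T k`
(enumerate `T k` by `Fin (T k).card`, `card ≤ m k`; use `∅` if `n - M k ≥ (T k).card`, and if `n` is in no block),
`B n := closedBall z (ρ k)` has `ediam ≤ 2 * ρ k` (`Metric.ediam_closedBall` or the like) `≤ ε n` by `hρ k n`. An easier way to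
index: the type `Σ k, Fin (m k)` is countable, but the order matters; alternatively prove by recursion on `k` that the sets
for the first `k` blocks can be placed on indices `< M k`. -/
theorem blocks {Z : Type*} [PseudoMetricSpace Z] (ε : ℕ → ℝ) (hε : ∀ n, 0 < ε n) (m : ℕ → ℕ) (ρ : ℕ → ℝ)
    (hρ : ∀ k n, n < ∑ i ∈ Finset.range (k + 1), m i → 2 * ρ k ≤ ε n) (S : ℕ → Set Z)
    (hS : ∀ k, ∃ T : Finset Z, T.card ≤ m k ∧ S k ⊆ ⋃ z ∈ T, Metric.closedBall z (ρ k)) :
    ∃ B : ℕ → Set Z, (∀ n, Metric.ediam (B n) ≤ ENNReal.ofReal (ε n)) ∧ (⋃ k, S k) ⊆ ⋃ n, B n := by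
  classical
  choose T hcard hcov using hS
  set M : ℕ → ℕ := fun k => ∑ i ∈ Finset.range k, m i with hM
  have hMs : ∀ k, M (k + 1) = M k + m k := fun k => Finset.sum_range_succ _ _
  have hMm : Monotone M := monotone_nat_of_le_succ (fun k => by rw [hMs]; omega)
  let pt : ℕ → ℕ → Set Z := fun k j =>
    if h : j < (T k).card then Metric.closedBall (((T k).equivFin.symm ⟨j, h⟩ : T k) : Z) (ρ k) else ∅
  let B : ℕ → Set Z := fun n =>
    if h : ∃ k, M k ≤ n ∧ n < M (k + 1) then pt h.choose (n - M h.choose) else ∅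
  refine ⟨B, ?_, ?_⟩
  · intro n
    by_cases h : ∃ k, M k ≤ n ∧ n < M (k + 1)
    · have hB : B n = pt h.choose (n - M h.choose) := dif_pos h
      rw [hB]
      by_cases h2 : n - M h.choose < (T h.choose).card
      · have hp : pt h.choose (n - M h.choose) = Metric.closedBall
            (((T h.choose).equivFin.symm ⟨n - M h.choose, h2⟩ : T h.choose) : Z) (ρ h.choose) :=
          dif_pos h2
        rw [hp]
        apply Metric.ediam_le
        intro x hx y hy
        rw [edist_dist]
        apply ENNReal.ofReal_le_ofReal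
        have h3 := hρ h.choose n h.choose_spec.2
        rw [Metric.mem_closedBall] at hx hy
        have h4 := dist_triangle_right x y
          (((T h.choose).equivFin.symm ⟨n - M h.choose, h2⟩ : T h.choose) : Z)
        linarith
      · have hp : pt h.choose (n - M h.choose) = ∅ := dif_neg h2
        rw [hp]; simp
    · have hB : B n = ∅ := dif_neg h
      rw [hB]; simp
  · intro x hx
    obtain ⟨k, hk⟩ := Set.mem_iUnion.mp hx
    obtain ⟨z, hz⟩ := Set.mem_iUnion.mp (hcov k hk)
    obtain ⟨hzT, hxz⟩ := Set.mem_iUnion.mp hz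
    set j : Fin (T k).card := (T k).equivFin ⟨z, hzT⟩ with hj
    have hjm : (j : ℕ) < m k := lt_of_lt_of_le j.2 (hcard k)
    have hex : ∃ k', M k' ≤ M k + j ∧ M k + j < M (k' + 1) := ⟨k, by omega, by rw [hMs]; omega⟩
    have hck : hex.choose = k := by
      have h1 := hex.choose_spec
      rcases lt_trichotomy hex.choose k with h2 | h2 | h2
      · have h3 := hMm (show hex.choose + 1 ≤ k from h2)
        have := h1.2
        omega
      · exact h2
      · have h3 := hMm (show k + 1 ≤ hex.choose from h2)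
        rw [hMs] at h3
        have := h1.1
        omega
    refine Set.mem_iUnion.mpr ⟨M k + j, ?_⟩
    have hB : B (M k + j) = pt hex.choose (M k + j - M hex.choose) := dif_pos hex
    rw [hB, hck, Nat.add_sub_cancel_left]
    have hp : pt k j = Metric.closedBall (((T k).equivFin.symm ⟨j, j.2⟩ : T k) : Z) (ρ k) :=
      dif_pos j.2
    rw [hp]
    have he : (T k).equivFin.symm ⟨j, j.2⟩ = ⟨z, hzT⟩ := by
      rw [hj]; simp
    rw [he]
    exact hxz

end Pool.Agent.H507_B
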