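import Mathlib
import Pool.Agent.H507_B.Defs

/-!
# Basic properties of the contents
-/

set_option autoImplicit false

open Set Filter Topology
open scoped ENNReal NNReal

namespace Pool.Agent.H507_B

/-- Below: `content id δ` (the case `φ = id`: cost `ediam`). Basic properties. -/
theorem content_mono {W : Type*} [PseudoEMetricSpace W] (δ : ℝ) {A B : Set W} (h : A ⊆ B) :
    content id δ A ≤ content id δ B := by
  unfold content
  exact le_iInf fun U => le_iInf fun hB => le_iInf fun hU =>
    iInf_le_of_le U (iInf_le_of_le (h.trans hB) (iInf_le_of_le hU le_rfl))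

theorem cost_eq {W : Type*} [PseudoEMetricSpace W] {δ : ℝ} {V : Set W}
    (h : Metric.ediam V < ENNReal.ofReal δ) :
    ENNReal.ofReal (id (Metric.ediam V).toReal) = Metric.ediam V :=
  ENNReal.ofReal_toReal (h.trans_le le_top).ne

theorem content_le_of_cover {W : Type*} [PseudoEMetricSpace W] (δ : ℝ) (hδ : 0 < δ) {A : Set W} {ι : Type*} [Countable ι]
    (U : ι → Set W) (hA : A ⊆ ⋃ i, U i) (hU : ∀ i, Metric.ediam (U i) < ENNReal.ofReal δ) :
    content id δ A ≤ ∑' i, Metric.ediam (U i) := by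
  -- `ENNReal.ofReal (x.toReal) = x` for finite `x`. Reindex `ι` by `ℕ` through an encoding, `∅` for the other indices
  -- (or treat `ι` empty/nonempty, `Encodable`, `tsum` over `ℕ` of `⋃ i with code n`): e.g. use `Encodable ι`,
  -- `U' n := ⋃ i ∈ Encodable.decode₂ ι n, U i`, `tsum_iUnion_decode₂`.
  classical
  haveI : Encodable ι := Encodable.ofCountable ι
  have hU' : ∀ n : ℕ, Metric.ediam (⋃ b ∈ Encodable.decode₂ ι n, U b) < ENNReal.ofReal δ := by
    intro n
    apply Encodable.iUnion_decode₂_cases (C := fun V : Set W => Metric.ediam V < ENNReal.ofReal δ)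
    · rw [Metric.ediam_empty]
      exact ENNReal.ofReal_pos.2 hδ
    · exact hU
  rw [← tsum_iUnion_decode₂ (fun V : Set W => Metric.ediam V) Metric.ediam_empty U]
  unfold content
  refine iInf_le_of_le (fun n => ⋃ b ∈ Encodable.decode₂ ι n, U b) (iInf_le_of_le ?_ (iInf_le_of_le hU' ?_))
  · rw [Encodable.iUnion_decode₂]
    exact hA
  · apply le_of_eq
    apply tsum_congr
    intro n
    exact cost_eq (hU' n)

/-- Countable subadditivity. PROOF. If the right side is `∞` nothing to do. Otherwise for `e > 0` choose for each `k` a cover of `A k`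
with sum `≤ content id δ (A k) + e * 2^{-k-1}` and combine them by `Nat.pair` (use `content_le_of_cover` with `ι = ℕ × ℕ`);
`ENNReal.tsum_prod`, `ENNReal.exists_pos_sum_of_countable'` or the like; conclude by `ENNReal.le_of_forall_pos_le_add`. (Or
identify `content id δ` with an `OuterMeasure.ofFunction`.) -/
theorem content_iUnion_le {W : Type*} [PseudoEMetricSpace W] (δ : ℝ) (hδ : 0 < δ) (A : ℕ → Set W) :
    content id δ (⋃ k, A k) ≤ ∑' k, content id δ (A k) := by
  apply ENNReal.le_of_forall_pos_le_add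
  intro ε hε hfin
  obtain ⟨ε', hε', hsum⟩ := ENNReal.exists_pos_sum_of_countable (ENNReal.coe_pos.2 hε).ne' ℕ
  have hk : ∀ k, ∃ U : ℕ → Set W, A k ⊆ ⋃ i, U i ∧ (∀ i, Metric.ediam (U i) < ENNReal.ofReal δ) ∧
      ∑' i, Metric.ediam (U i) ≤ content id δ (A k) + ε' k := by
    intro k
    have h1 : content id δ (A k) ≠ ⊤ :=
      ne_top_of_le_ne_top hfin.ne (ENNReal.le_tsum k)
    have h2 : content id δ (A k) < content id δ (A k) + ε' k :=
      ENNReal.lt_add_right h1 (ENNReal.coe_pos.2 (hε' k)).ne'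
    have h3 : (⨅ (U : ℕ → Set W) (_ : A k ⊆ ⋃ i, U i) (_ : ∀ i, Metric.ediam (U i) < ENNReal.ofReal δ),
      ∑' i, ENNReal.ofReal (id (Metric.ediam (U i)).toReal)) < content id δ (A k) + ε' k := h2
    obtain ⟨U, h4⟩ := iInf_lt_iff.1 h3
    obtain ⟨h5, h6⟩ := iInf_lt_iff.1 h4
    obtain ⟨h7, h8⟩ := iInf_lt_iff.1 h6
    refine ⟨U, h5, h7, ?_⟩
    have h9 : ∑' i, Metric.ediam (U i) = ∑' i, ENNReal.ofReal (id (Metric.ediam (U i)).toReal) :=
      tsum_congr fun i => (cost_eq (h7 i)).symm
    rw [h9]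
    exact h8.le
  choose U hU1 hU2 hU3 using hk
  have h1 : content id δ (⋃ k, A k) ≤ ∑' p : ℕ × ℕ, Metric.ediam (U p.1 p.2) := by
    apply content_le_of_cover δ hδ (fun p : ℕ × ℕ => U p.1 p.2)
    · intro x hx
      obtain ⟨k, hk⟩ := mem_iUnion.1 hx
      obtain ⟨i, hi⟩ := mem_iUnion.1 (hU1 k hk)
      exact mem_iUnion.2 ⟨(k, i), hi⟩
    · intro p
      exact hU2 p.1 p.2
  refine h1.trans ?_
  rw [ENNReal.tsum_prod (f := fun k i => Metric.ediam (U k i))]
  calc ∑' k, ∑' i, Metric.ediam (U k i) ≤ ∑' k, (content id δ (A k) + ε' k) :=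
        ENNReal.tsum_le_tsum hU3
    _ = ∑' k, content id δ (A k) + ∑' k, (ε' k : ℝ≥0∞) := ENNReal.tsum_add
    _ ≤ ∑' k, content id δ (A k) + ε := by gcongr

theorem content_empty {W : Type*} [PseudoEMetricSpace W] (δ : ℝ) (hδ : 0 < δ) :
    content id δ (∅ : Set W) = 0 := by
  have h := content_le_of_cover δ hδ (A := (∅ : Set W)) (ι := Empty) (fun _ => ∅)
    (Set.empty_subset _) (fun i => i.elim)
  rw [tsum_empty] at h
  exact le_antisymm h bot_le

theorem content_union_le {W : Type*} [PseudoEMetricSpace W] (δ : ℝ) (hδ : 0 < δ) (A B : Set W) :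
    content id δ (A ∪ B) ≤ content id δ A + content id δ B := by
  have h := content_iUnion_le δ hδ (fun k : ℕ => if k = 0 then A else if k = 1 then B else ∅)
  have h1 : A ∪ B ⊆ ⋃ k : ℕ, (if k = 0 then A else if k = 1 then B else ∅) := by
    rintro x (hx | hx)
    · exact mem_iUnion.2 ⟨0, by simpa using hx⟩
    · exact mem_iUnion.2 ⟨1, by simpa using hx⟩
  refine (content_mono δ h1).trans (h.trans ?_)
  rw [tsum_eq_sum (s := Finset.range 2)]
  · rw [Finset.sum_range_succ, Finset.sum_range_one]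
    simp
  · intro k hk
    rw [Finset.mem_range, not_lt] at hk
    have h0 : k ≠ 0 := by omega
    have h2 : k ≠ 1 := by omega
    simp only [if_neg h0, if_neg h2]
    exact content_empty δ hδ

theorem content_biUnion_le {W ι : Type*} [PseudoEMetricSpace W] (δ : ℝ) (hδ : 0 < δ) (T : Finset ι) (A : ι → Set W) :
    content id δ (⋃ z ∈ T, A z) ≤ ∑ z ∈ T, content id δ (A z) := by
  classical
  induction T using Finset.induction_on with
  | empty =>
    have h := content_le_of_cover (W := W) δ hδ (A := ∅) (fun _ : Fin 0 => (∅ : Set W)) (by simp)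
      (fun i => i.elim0)
    simpa using h
  | insert a s ha ih =>
    rw [Finset.set_biUnion_insert, Finset.sum_insert ha]
    exact (content_union_le δ hδ _ _).trans (add_le_add le_rfl ih)

/-- A countable union of sets of diameter `0` has content `0`. -/
theorem content_eq_zero {W : Type*} [PseudoEMetricSpace W] (δ : ℝ) (hδ : 0 < δ) (U : ℕ → Set W)
    (hU : ∀ i, Metric.ediam (U i) = 0) : content id δ (⋃ i, U i) = 0 := by
  have h := content_le_of_cover δ hδ (A := ⋃ i, U i) U subset_rfl
    (fun i => by rw [hU i]; exact ENNReal.ofReal_pos.2 hδ)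
  simpa [hU] using h

/-- `content φ δ` increases when `δ` decreases; if `H id A > 0` then for some `j : ℕ`,
`content id (1/(j+1)) A > 1/(j+1)`. PROOF. Some `δ > 0` has `0 < content id δ A` (`iSup` positive). Choose `j` with `1/(j+1) ≤ δ` and
`ofReal (1/(j+1)) < content id δ A` (`ENNReal` archimedean). Covers by sets of diameter `< 1/(j+1)` are covers by sets of
diameter `< δ`, so `content id δ A ≤ content id (1/(j+1)) A`. -/
theorem exists_nat_content {W : Type*} [PseudoEMetricSpace W] (A : Set W) (h : 0 < H id A) :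
    ∃ j : ℕ, ENNReal.ofReal (1 / (j + 1)) < content id (1 / (j + 1)) A := by
  unfold H at h
  obtain ⟨δ, h1⟩ := lt_iSup_iff.1 h
  obtain ⟨hδ, h2⟩ := lt_iSup_iff.1 h1
  obtain ⟨q, hq0, hqx⟩ := ENNReal.lt_iff_exists_nnreal_btwn.1 h2
  have hq : (0 : ℝ) < q := by exact_mod_cast hq0
  obtain ⟨j, hj⟩ := exists_nat_one_div_lt (lt_min hδ hq)
  refine ⟨j, ?_⟩
  have hj1 : (1 : ℝ) / (j + 1) ≤ δ := (hj.le).trans (min_le_left _ _)
  have hj2 : (1 : ℝ) / (j + 1) ≤ q := (hj.le).trans (min_le_right _ _)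
  have h3 : ENNReal.ofReal (1 / (j + 1)) ≤ (q : ℝ≥0∞) := by
    have := ENNReal.ofReal_le_ofReal hj2
    rwa [ENNReal.ofReal_coe_nnreal] at this
  have h4 : content id δ A ≤ content id (1 / (j + 1)) A := by
    unfold content
    refine le_iInf fun U => le_iInf fun hU => le_iInf fun hd => ?_
    exact iInf_le_of_le U (iInf_le_of_le hU (iInf_le_of_le
      (fun i => (hd i).trans_le (ENNReal.ofReal_le_ofReal hj1)) le_rfl))
  exact (h3.trans_lt hqx).trans_le h4

end Pool.Agent.H507_B
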