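import Mathlib
import Pool.Agent.H507_B.Defs

/-!
# The counting step
-/

set_option autoImplicit false

open Set Filter Topology
open scoped ENNReal NNReal

namespace Pool.Agent.H507_B

/-- The counting step. `V := ⋃ i ∈ G, U i`, where `G` is the set of indices of the sets with diameter in `(r', r]` or any other set of
indices with `ediam (U i) ≤ r` for `i ∈ G`. `c' = 2 * b`: each `z ∈ T` has `content id δ (E z ∩ V) ≥ 2 * b`, where `E z ⊆ L z`; the parts of
`L z` close to `L z'` have content `≤ η`, and `T.card * η ≤ b`. Then `T.card * b ≤ ∑' i : G, ediam (U i)`.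
PROOF. For `z ∈ T` let `P z := (E z ∩ V) \ ⋃ z' ∈ T.erase z, {w | ∃ w' ∈ L z', edist w w' ≤ r}`. By subadditivity
`2 * b ≤ content (E z ∩ V) ≤ content (P z) + ∑_{z' ∈ T.erase z} η ≤ content (P z) + b`, so `b ≤ content (P z)`
(`b` finite). Let `I z := {i ∈ G | (U i ∩ P z).Nonempty}`. For `z ≠ z'` in `T` these are disjoint: `w ∈ U i ∩ P z`, `w' ∈ U i ∩ P z'`
have `edist w w' ≤ ediam (U i) ≤ r`, and `w' ∈ L z'`, contradicting `w ∈ P z`. `P z ⊆ ⋃ i ∈ I z, U i`, so
`b ≤ content (P z) ≤ ∑' i : I z, ediam (U i)` (`hcov`). Sum over `z ∈ T`: disjoint subsets of `G`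
(`ENNReal.tsum_biUnion` / `tsum_union_disjoint` / `Finset.sum` of `tsum` over `indicator`s ≤ `tsum`: e.g. write
`∑' i : I z, ediam (U i) = ∑' i, (I z).indicator (fun i => ediam (U i)) i`, exchange `∑ z ∈ T` and `∑'`, and for each `i` at most one
`z ∈ T` contributes). -/
theorem counting {W Z : Type*} [PseudoEMetricSpace W] (δ : ℝ)
    (hmono : ∀ A B : Set W, A ⊆ B → content id δ A ≤ content id δ B)
    (hunion : ∀ A B : Set W, content id δ (A ∪ B) ≤ content id δ A + content id δ B)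
    (hfin : ∀ (T : Finset Z) (A : Z → Set W), content id δ (⋃ z ∈ T, A z) ≤ ∑ z ∈ T, content id δ (A z))
    (U : ℕ → Set W)
    (hcov : ∀ (A : Set W) (I : Set ℕ), A ⊆ ⋃ i ∈ I, U i → content id δ A ≤ ∑' i : I, Metric.ediam (U i))
    (G : Set ℕ) (r : ℝ) (hG : ∀ i ∈ G, Metric.ediam (U i) ≤ ENNReal.ofReal r)
    (E L : Z → Set W) (hEL : ∀ z, E z ⊆ L z) (b η : ℝ≥0∞) (hb : b ≠ ∞) (T : Finset Z)
    (hT : ∀ z ∈ T, 2 * b ≤ content id δ (E z ∩ ⋃ i ∈ G, U i))
    (hsep : ∀ z ∈ T, ∀ z' ∈ T, z ≠ z' →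
      content id δ (L z ∩ {w | ∃ w' ∈ L z', edist w w' ≤ ENNReal.ofReal r}) ≤ η)
    (hη : T.card * η ≤ b) :
    T.card * b ≤ ∑' i : G, Metric.ediam (U i) := by
  classical
  set V : Set W := ⋃ i ∈ G, U i with hV
  set Nb : Z → Set W := fun z' => {w | ∃ w' ∈ L z', edist w w' ≤ ENNReal.ofReal r} with hNb
  set P : Z → Set W := fun z => (E z ∩ V) \ ⋃ z' ∈ T.erase z, Nb z' with hP
  have h1 : ∀ z ∈ T, b ≤ content id δ (P z) := by
    intro z hz
    have hsub : E z ∩ V ⊆ P z ∪ ⋃ z' ∈ T.erase z, (L z ∩ Nb z') := by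
      intro w hw
      by_cases hwN : w ∈ ⋃ z' ∈ T.erase z, Nb z'
      · right
        rw [mem_iUnion₂] at hwN ⊢
        obtain ⟨z', hz', hw'⟩ := hwN
        exact ⟨z', hz', hEL z hw.1, hw'⟩
      · exact Or.inl ⟨hw, hwN⟩
    have h2 : 2 * b ≤ content id δ (P z) + b := by
      calc 2 * b ≤ content id δ (E z ∩ V) := hT z hz
        _ ≤ content id δ (P z ∪ ⋃ z' ∈ T.erase z, (L z ∩ Nb z')) := hmono _ _ hsub
        _ ≤ content id δ (P z) + content id δ (⋃ z' ∈ T.erase z, (L z ∩ Nb z')) := hunion _ _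
        _ ≤ content id δ (P z) + ∑ z' ∈ T.erase z, content id δ (L z ∩ Nb z') := by
            gcongr
            exact hfin _ _
        _ ≤ content id δ (P z) + ∑ z' ∈ T.erase z, η := by
            gcongr with z' hz'
            exact hsep z hz z' (Finset.mem_of_mem_erase hz') (Finset.ne_of_mem_erase hz').symm
        _ ≤ content id δ (P z) + T.card * η := by
            rw [Finset.sum_const, nsmul_eq_mul]
            gcongr
            exact Finset.erase_subset _ _
        _ ≤ content id δ (P z) + b := by gcongr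
    rw [two_mul] at h2
    exact ENNReal.le_of_add_le_add_right hb h2
  set I : Z → Set ℕ := fun z => {i | i ∈ G ∧ (U i ∩ P z).Nonempty} with hI
  have h2 : ∀ z ∈ T, b ≤ ∑' i : I z, Metric.ediam (U i) := by
    intro z hz
    refine (h1 z hz).trans (hcov _ _ ?_)
    intro w hw
    have hwV : w ∈ V := hw.1.2
    rw [hV, mem_iUnion₂] at hwV
    obtain ⟨i, hi, hwi⟩ := hwV
    rw [mem_iUnion₂]
    exact ⟨i, ⟨hi, ⟨w, hwi, hw⟩⟩, hwi⟩
  have hdisj : ∀ z ∈ T, ∀ z' ∈ T, ∀ i, i ∈ I z → i ∈ I z' → z = z' := by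
    intro z hz z' hz' i hi hi'
    by_contra hne
    obtain ⟨hiG, w, hwU, hwP⟩ := hi
    obtain ⟨-, w', hwU', hwP'⟩ := hi'
    apply hwP.2
    rw [mem_iUnion₂]
    refine ⟨z', Finset.mem_erase.2 ⟨fun h => hne h.symm, hz'⟩, w', hEL z' hwP'.1.1, ?_⟩
    exact (Metric.edist_le_ediam_of_mem hwU hwU').trans (hG i hiG)
  calc (T.card : ℝ≥0∞) * b = ∑ _z ∈ T, b := by rw [Finset.sum_const, nsmul_eq_mul]
    _ ≤ ∑ z ∈ T, ∑' i : I z, Metric.ediam (U i) := Finset.sum_le_sum h2
    _ = ∑ z ∈ T, ∑' i, (I z).indicator (fun i => Metric.ediam (U i)) i :=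
        Finset.sum_congr rfl fun z _ => tsum_subtype (I z) (fun i => Metric.ediam (U i))
    _ = ∑' i, ∑ z ∈ T, (I z).indicator (fun i => Metric.ediam (U i)) i :=
        (Summable.tsum_finsetSum fun z _ => ENNReal.summable).symm
    _ ≤ ∑' i, G.indicator (fun i => Metric.ediam (U i)) i := by
        refine ENNReal.tsum_le_tsum fun i => ?_
        by_cases h : ∃ z ∈ T, i ∈ I z
        · obtain ⟨z, hz, hi⟩ := h
          rw [Finset.sum_eq_single_of_mem z hz (fun z' hz' hne => ?_), indicator_of_mem hi,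
            indicator_of_mem hi.1]
          exact indicator_of_notMem (fun hi' => hne (hdisj z' hz' z hz i hi' hi)) _
        · push Not at h
          rw [Finset.sum_eq_zero fun z hz => indicator_of_notMem (h z hz) _]
          exact bot_le
    _ = ∑' i : G, Metric.ediam (U i) := (tsum_subtype G (fun i => Metric.ediam (U i))).symm

end Pool.Agent.H507_B
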