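import Mathlib
import Pool.Agent.H507_B.Defs

/-!
# Strong measure zero sets and separated sets
-/

set_option autoImplicit false

open Set Filter Topology
open scoped ENNReal NNReal

namespace Pool.Agent.H507_B

theorem smz_iUnion {Z : Type*} [PseudoEMetricSpace Z] (A : ℕ → Set Z) (h : ∀ k, SMZ (A k)) :
    SMZ (⋃ k, A k) := by
  intro ε hε
  choose B hB hAB using fun k => h k (fun n => ε (Nat.pair k n)) (fun n => hε _)
  refine ⟨fun i => B i.unpair.1 i.unpair.2, fun i => ?_, ?_⟩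
  · have := hB i.unpair.1 i.unpair.2
    rwa [Nat.pair_unpair] at this
  · refine iUnion_subset fun k z hz => ?_
    obtain ⟨n, hn⟩ := mem_iUnion.1 (hAB k hz)
    refine mem_iUnion.2 ⟨Nat.pair k n, ?_⟩
    simpa using hn

theorem smz_mono {Z : Type*} [PseudoEMetricSpace Z] {A A' : Set Z} (h : SMZ A') (hA : A ⊆ A') : SMZ A := by
  intro ε hε
  obtain ⟨B, hB, hAB⟩ := h ε hε
  exact ⟨B, hB, hA.trans hAB⟩

theorem cover_of_separated {Z : Type*} [PseudoMetricSpace Z] (S : Set Z) (ρ : ℝ) (hρ : 0 ≤ ρ) (m : ℕ)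
    (h : ∀ T : Finset Z, (T : Set Z) ⊆ S → (∀ z ∈ T, ∀ z' ∈ T, z ≠ z' → ρ < dist z z') → T.card ≤ m) :
    ∃ T : Finset Z, T.card ≤ m ∧ S ⊆ ⋃ z ∈ T, Metric.closedBall z ρ := by
  classical
  let P : ℕ → Prop := fun n => ∃ T : Finset Z, (T : Set Z) ⊆ S ∧
    (∀ z ∈ T, ∀ z' ∈ T, z ≠ z' → ρ < dist z z') ∧ T.card = n
  have hP0 : P 0 := ⟨∅, by simp, by simp, rfl⟩
  have hbound : ∀ n, P n → n ≤ m := by
    rintro n ⟨T, h1, h2, rfl⟩
    exact h T h1 h2
  obtain ⟨T, hTS, hTsep, hTcard⟩ : P (Nat.findGreatest P m) := Nat.findGreatest_spec (P := P) (Nat.zero_le m) hP0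
  refine ⟨T, h T hTS hTsep, fun z hz => ?_⟩
  by_contra hcon
  simp only [mem_iUnion, Metric.mem_closedBall, not_exists, not_le] at hcon
  have hzT : z ∉ T := by
    intro hzT
    have h1 := hcon z hzT
    rw [dist_self] at h1
    exact absurd hρ (not_le.2 h1)
  have h3 : P (T.card + 1) := by
    refine ⟨insert z T, ?_, ?_, Finset.card_insert_of_notMem hzT⟩
    · rw [Finset.coe_insert]
      exact insert_subset hz hTS
    · intro a ha b hb hab
      rw [Finset.mem_insert] at ha hb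
      rcases ha with rfl | ha <;> rcases hb with rfl | hb
      · exact absurd rfl hab
      · exact hcon b hb
      · rw [dist_comm]; exact hcon a ha
      · exact hTsep a ha b hb hab
  have h4 := hbound _ h3
  have h5 := Nat.le_findGreatest h4 h3
  omega

end Pool.Agent.H507_B
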