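import Mathlib
import Pool.Agent.H507_B.Defs

/-!
# Gauges and scales
-/

set_option autoImplicit false

open Set Filter Topology
open scoped ENNReal NNReal

namespace Pool.Agent.H507_B

/-- A gauge from a sequence of scales. PROOF. For `t > 0` let `κ t` be the least `k` with `r (k+1) < t` (exists because `r → 0`;
`Nat.find`), `κ t = 0` for `t ≤ 0`. If `0 < t ≤ r 0` then `r (κ t + 1) < t ≤ r (κ t)` (minimality if `κ t > 0`). `κ` is nonincreasing on
`(0, ∞)`. `φ t := t * (1/4) ^ κ t` for `t > 0` and `0` for `t ≤ 0`. It is monotone on `[0, ∞)`. Superlinear: `φ t / t = (1/4) ^ κ t` for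
`t > 0`; given `K`, for `0 < t < r (K+1)` we have `κ t ≥ K` (if `κ t < K` then `r (K+1) ≤ r (κ t + 1) < t`), so the quotient is
`≤ (1/4)^K`. -/
theorem exists_gauge (r : ℕ → ℝ) (hr : ∀ k, 0 < r k) (hanti : Antitone r) (h0 : Tendsto r atTop (𝓝 0)) :
    ∃ (φ : ℝ → ℝ) (κ : ℝ → ℕ), Gauge φ ∧ Superlinear φ ∧
      ∀ t, 0 < t → t ≤ r 0 → r (κ t + 1) < t ∧ t ≤ r (κ t) ∧ φ t = t * (1 / 4) ^ κ t := by
  classical
  have hex : ∀ t : ℝ, 0 < t → ∃ k, r (k + 1) < t := by
    intro t ht
    obtain ⟨k, hk⟩ := ((h0.comp (tendsto_add_atTop_nat 1)).eventually (gt_mem_nhds ht)).exists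
    exact ⟨k, hk⟩
  let κ : ℝ → ℕ := fun t => if h : 0 < t then Nat.find (hex t h) else 0
  let φ : ℝ → ℝ := fun t => if 0 < t then t * (1 / 4) ^ κ t else 0
  have hκ : ∀ t (h : 0 < t), κ t = Nat.find (hex t h) := fun t h => dif_pos h
  have hφ : ∀ t, 0 < t → φ t = t * (1 / 4) ^ κ t := fun t h => if_pos h
  have hφ0 : ∀ t, ¬ 0 < t → φ t = 0 := fun t h => if_neg h
  have hspec : ∀ t, 0 < t → r (κ t + 1) < t := by
    intro t ht
    rw [hκ t ht]
    exact Nat.find_spec (hex t ht)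
  have hmin : ∀ t, 0 < t → ∀ k, r (k + 1) < t → κ t ≤ k := by
    intro t ht k hk
    rw [hκ t ht]
    exact Nat.find_min' (hex t ht) hk
  refine ⟨φ, κ, ⟨?_, ?_, ?_⟩, ?_, ?_⟩
  · intro s hs t ht hst
    have hs0 : 0 ≤ s := hs
    have ht0 : 0 ≤ t := ht
    by_cases h : 0 < s
    · have htp : 0 < t := lt_of_lt_of_le h hst
      rw [hφ s h, hφ t htp]
      have h1 : κ t ≤ κ s := hmin t htp _ ((hspec s h).trans_le hst)
      have h2 : (1 / 4 : ℝ) ^ κ s ≤ (1 / 4) ^ κ t :=
        pow_le_pow_of_le_one (by norm_num) (by norm_num) h1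
      exact mul_le_mul hst h2 (by positivity) ht0
    · rw [hφ0 s h]
      by_cases h' : 0 < t
      · rw [hφ t h']
        positivity
      · rw [hφ0 t h']
  · exact hφ0 0 (lt_irrefl 0)
  · intro t ht
    rw [hφ t ht]
    positivity
  · unfold Superlinear
    rw [Metric.tendsto_nhds]
    intro ε hε
    obtain ⟨K, hK⟩ := exists_pow_lt_of_lt_one hε (by norm_num : (1 / 4 : ℝ) < 1)
    filter_upwards [Ioo_mem_nhdsGT (hr (K + 1))] with t ht
    rw [dist_zero_right, hφ t ht.1, mul_div_assoc, mul_comm, div_mul_cancel₀ _ ht.1.ne',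
      Real.norm_of_nonneg (by positivity)]
    have h1 : K ≤ κ t := by
      by_contra hcon
      push Not at hcon
      have h2 : r (K + 1) ≤ r (κ t + 1) := hanti (by omega)
      have h3 := hspec t ht.1
      have h4 := ht.2
      linarith
    exact (pow_le_pow_of_le_one (by norm_num) (by norm_num) h1).trans_lt hK
  · intro t ht ht0
    refine ⟨hspec t ht, ?_, hφ t ht⟩
    rcases hk : κ t with _ | m
    · exact ht0
    · by_contra hcon
      push Not at hcon
      have := hmin t ht m hcon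
      omega

theorem exists_scales_low (ε : ℕ → ℝ) (hε : ∀ n, 0 < ε n) (N : ℕ) :
    ∃ c : ℝ, 0 < c ∧ ∀ n, n < N → 2 * c ≤ ε n := by
  induction N with
  | zero => exact ⟨1, one_pos, fun n hn => absurd hn (Nat.not_lt_zero n)⟩
  | succ N ih =>
    obtain ⟨c, hc, h⟩ := ih
    refine ⟨min c (ε N / 2), lt_min hc (half_pos (hε N)), fun n hn => ?_⟩
    rcases Nat.lt_succ_iff_lt_or_eq.1 hn with h1 | h1
    · have h2 := h n h1
      have h3 := min_le_left c (ε N / 2)
      linarith
    · subst h1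
      have h3 := min_le_right c (ε n / 2)
      linarith

/-- Choice of the scales. PROOF. Recursion on `k` (or strong recursion): `ρ k := (min of ε n over n < M (k+1), and 1) / 2` with
`M (k+1) = ∑ i ∈ range (k+1), m i` (finite minimum, e.g. `Finset.inf'` over `Finset.range`, or prove existence of a positive lower
bound by induction); `r' k > 0` from `hsep` for `ρ k` and `η k`; then `r k := min of d, (1/2)^k and r' i for i ≤ k` is
positive, antitone and tends to `0` (squeeze with `(1/2)^k`); `hmono` gives `P (ρ k) (η k) (r k)`. -/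
theorem exists_scales (ε : ℕ → ℝ) (hε : ∀ n, 0 < ε n) (m : ℕ → ℕ) (η : ℕ → ℝ) (hη : ∀ k, 0 < η k) (d : ℝ) (hd : 0 < d)
    (P : ℝ → ℝ → ℝ → Prop) (hmono : ∀ ρ η r r', 0 < r' → r' ≤ r → P ρ η r → P ρ η r')
    (hsep : ∀ ρ η, 0 < ρ → 0 < η → ∃ r, 0 < r ∧ P ρ η r) :
    ∃ (ρ r : ℕ → ℝ), (∀ k, 0 < ρ k) ∧ (∀ k, 0 < r k) ∧ Antitone r ∧ Tendsto r atTop (𝓝 0) ∧ r 0 ≤ d ∧
      (∀ k n, n < ∑ i ∈ Finset.range (k + 1), m i → 2 * ρ k ≤ ε n) ∧ ∀ k, P (ρ k) (η k) (r k) := by
  have hc := fun N => exists_scales_low ε hε N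
  choose c hc0 hcε using hc
  have hr := fun k : ℕ => hsep (c (∑ i ∈ Finset.range (k + 1), m i)) (η k) (hc0 _) (hη k)
  choose r' hr'0 hr'P using hr
  let r : ℕ → ℝ := fun k => Nat.rec (min d (r' 0)) (fun k x => min (x / 2) (r' (k + 1))) k
  have hr0 : r 0 = min d (r' 0) := rfl
  have hrs : ∀ k, r (k + 1) = min (r k / 2) (r' (k + 1)) := fun k => rfl
  have hpos : ∀ k, 0 < r k := by
    intro k
    induction k with
    | zero => rw [hr0]; exact lt_min hd (hr'0 0)
    | succ k ih => rw [hrs]; exact lt_min (half_pos ih) (hr'0 (k + 1))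
  have hle : ∀ k, r k ≤ r' k := by
    intro k
    cases k with
    | zero => rw [hr0]; exact min_le_right _ _
    | succ k => rw [hrs]; exact min_le_right _ _
  have hgeo : ∀ k, r k ≤ d * (1 / 2 : ℝ) ^ k := by
    intro k
    induction k with
    | zero => rw [hr0, pow_zero, mul_one]; exact min_le_left _ _
    | succ k ih =>
      rw [hrs]
      refine (min_le_left _ _).trans ?_
      rw [pow_succ]
      linarith
  refine ⟨fun k => c (∑ i ∈ Finset.range (k + 1), m i), r, fun k => hc0 _, hpos, ?_, ?_, ?_, ?_, ?_⟩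
  · refine antitone_nat_of_succ_le fun k => ?_
    rw [hrs]
    refine (min_le_left _ _).trans ?_
    have := hpos k
    linarith
  · have h1 : Tendsto (fun k : ℕ => d * (1 / 2 : ℝ) ^ k) atTop (𝓝 0) := by
      have h2 := (tendsto_pow_atTop_nhds_zero_of_lt_one (by norm_num : (0 : ℝ) ≤ 1 / 2)
        (by norm_num : (1 / 2 : ℝ) < 1)).const_mul d
      rwa [mul_zero] at h2
    exact squeeze_zero (fun k => (hpos k).le) hgeo h1
  · rw [hr0]
    exact min_le_left _ _
  · intro k n hn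
    exact hcε _ n hn
  · intro k
    exact hmono _ _ _ _ (hpos k) (hle k) (hr'P k)

end Pool.Agent.H507_B
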