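import Mathlib
import Pool.Agent.H507_B.Defs
import Pool.Agent.H507_B.Cover
import Pool.Agent.H507_B.Blocks
import Pool.Agent.H507_B.Scales
import Pool.Agent.H507_B.Content
import Pool.Agent.H507_B.Count

/-!
# The parameters of the sets `L z` with `H¹(E ∩ L z) > 0`
-/

set_option autoImplicit false

open Set Filter Topology
open scoped ENNReal NNReal

namespace Pool.Agent.H507_B

theorem content_zero_of_H {W : Type*} [PseudoEMetricSpace W] {φ : ℝ → ℝ} {E : Set W} (h : H φ E = 0)
    {δ : ℝ} (hδ : 0 < δ) : content φ δ E = 0 := by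
  refine le_antisymm ?_ bot_le
  rw [← h]
  exact le_iSup₂_of_le δ hδ le_rfl

theorem exists_cover {W : Type*} [PseudoEMetricSpace W] {φ : ℝ → ℝ} {E : Set W} {δ : ℝ}
    (h : content φ δ E < 1) : ∃ U : ℕ → Set W, E ⊆ ⋃ i, U i ∧
      (∀ i, Metric.ediam (U i) < ENNReal.ofReal δ) ∧
      ∑' i, ENNReal.ofReal (φ (Metric.ediam (U i)).toReal) < 1 := by
  unfold content at h
  simp only [iInf_lt_iff] at h
  obtain ⟨U, h1, h2, h3⟩ := h
  exact ⟨U, h1, h2, h3⟩

theorem main {W Z : Type*} [PseudoEMetricSpace W] [PseudoMetricSpace Z] (L : Z → Set W)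
    (hL : ∀ δ > 0, ∀ ρ > 0, ∀ η > 0, ∃ r > 0, ∀ z z' : Z, ρ < dist z z' →
      content id δ (L z ∩ {w | ∃ w' ∈ L z', edist w w' ≤ ENNReal.ofReal r}) ≤ ENNReal.ofReal η)
    (E : Set W) (hE : ∀ φ, Gauge φ → Superlinear φ → H φ E = 0) :
    SMZ {z | 0 < H id (E ∩ L z)} := by
  classical
  let A : ℕ → Set Z := fun j => {z | ENNReal.ofReal (1 / (j + 1)) < content id (1 / (j + 1)) (E ∩ L z)}
  refine smz_mono (A' := ⋃ j, A j) ?_ (fun z hz => ?_)
  swap
  · obtain ⟨j, hj⟩ := exists_nat_content _ hz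
    exact mem_iUnion.2 ⟨j, hj⟩
  refine smz_iUnion A fun j => ?_
  intro ε hε
  set c : ℝ := 1 / ((j : ℝ) + 1) with hcdef
  have hc : 0 < c := by positivity
  let m : ℕ → ℕ := fun k => ⌈4 * 8 ^ k / c⌉₊
  let η : ℕ → ℝ := fun k => c / 2 ^ (k + 2) / (m k + 1)
  have hη : ∀ k, 0 < η k := fun k => by positivity
  obtain ⟨ρ, r, hρ, hr, hanti, hr0, hrc, hρε, hP⟩ := exists_scales ε hε m η hη (c / 2) (by positivity)
    (fun ρ η r => ∀ z z' : Z, ρ < dist z z' →
      content id c (L z ∩ {w | ∃ w' ∈ L z', edist w w' ≤ ENNReal.ofReal r}) ≤ ENNReal.ofReal η)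
    (fun ρ η r r' _ hrr h z z' hz => (content_mono c (by
      rintro w ⟨hw, w', hw', hd⟩
      exact ⟨hw, w', hw', hd.trans (ENNReal.ofReal_le_ofReal hrr)⟩)).trans (h z z' hz))
    (fun ρ η hρ hη => hL c hc ρ hρ η hη)
  obtain ⟨φ, κ, hφ, hφs, hκ⟩ := exists_gauge r hr hanti hr0
  obtain ⟨U, hEU, hU, hsum⟩ := exists_cover (φ := φ) (E := E) (δ := r 0) (by
    rw [content_zero_of_H (hE φ hφ hφs) (hr 0)]; exact one_pos)
  have hfin : ∀ i, Metric.ediam (U i) ≠ ∞ := fun i => ((hU i).trans ENNReal.ofReal_lt_top).ne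
  have hrc' : r 0 < c := by linarith
  have hUc : ∀ i, Metric.ediam (U i) < ENNReal.ofReal c := fun i =>
    (hU i).trans_le (ENNReal.ofReal_le_ofReal hrc'.le)
  let G : ℕ → Set ℕ := fun k => {i | Metric.ediam (U i) ≠ 0 ∧ κ (Metric.ediam (U i)).toReal = k}
  have hpos : ∀ i, Metric.ediam (U i) ≠ 0 → 0 < (Metric.ediam (U i)).toReal := fun i hi =>
    ENNReal.toReal_pos hi (hfin i)
  have hle0 : ∀ i, (Metric.ediam (U i)).toReal ≤ r 0 := fun i => by
    have := (hU i).le
    exact ENNReal.toReal_le_of_le_ofReal (hr 0).le this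
  have hGr : ∀ k, ∀ i ∈ G k, Metric.ediam (U i) ≤ ENNReal.ofReal (r k) := by
    rintro k i ⟨hi, rfl⟩
    rw [← ENNReal.ofReal_toReal (hfin i)]
    exact ENNReal.ofReal_le_ofReal (by
      simpa [ENNReal.toReal_ofReal] using (hκ _ (hpos i hi) (hle0 i)).2.1)
  have hGsum : ∀ k, ∑' i : G k, Metric.ediam (U i) ≤ 4 ^ k := by
    intro k
    have h1 : ∀ i : G k, Metric.ediam (U i) =
        4 ^ k * ENNReal.ofReal (φ (Metric.ediam (U i)).toReal) := by
      rintro ⟨i, hi, hik⟩
      have h2 := (hκ _ (hpos i hi) (hle0 i)).2.2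
      simp only
      rw [h2, hik, ENNReal.ofReal_mul ENNReal.toReal_nonneg, ENNReal.ofReal_toReal (hfin i),
        ENNReal.ofReal_pow (by norm_num), mul_comm (4 ^ k), mul_assoc, ← mul_pow]
      have h3 : ENNReal.ofReal (1 / 4) * 4 = 1 := by
        rw [show (4 : ℝ≥0∞) = ENNReal.ofReal 4 by simp, ← ENNReal.ofReal_mul (by norm_num)]
        norm_num
      rw [h3, one_pow, mul_one]
    calc ∑' i : G k, Metric.ediam (U i)
        = ∑' i : G k, 4 ^ k * ENNReal.ofReal (φ (Metric.ediam (U i)).toReal) := tsum_congr h1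
      _ = 4 ^ k * ∑' i : G k, ENNReal.ofReal (φ (Metric.ediam (U i)).toReal) := ENNReal.tsum_mul_left
      _ ≤ 4 ^ k * 1 := by
          gcongr
          exact (ENNReal.tsum_comp_le_tsum_of_injective Subtype.val_injective
            (fun i => ENNReal.ofReal (φ (Metric.ediam (U i)).toReal))).trans hsum.le
      _ = 4 ^ k := mul_one _
  let V : ℕ → Set W := fun k => ⋃ i ∈ G k, U i
  let S : ℕ → Set Z := fun k => {z | ENNReal.ofReal (c / 2 ^ (k + 1)) ≤ content id c (E ∩ L z ∩ V k)}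
  have hAS : A j ⊆ ⋃ k, S k := by
    intro z hz
    have hz' : ENNReal.ofReal c < content id c (E ∩ L z) := hz
    by_contra hcon
    simp only [mem_iUnion, not_exists] at hcon
    have hlt : ∀ k, content id c (E ∩ L z ∩ V k) ≤ ENNReal.ofReal (c / 2 ^ (k + 1)) := fun k =>
      (not_le.1 (hcon k)).le
    let U0 : ℕ → Set W := fun i => if Metric.ediam (U i) = 0 then U i else ∅
    have hU0 : ∀ i, Metric.ediam (U0 i) = 0 := by
      intro i
      by_cases h : Metric.ediam (U i) = 0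
      · simp [U0, h]
      · simp [U0, h]
    have hsub : E ∩ L z ⊆ (⋃ k, (E ∩ L z ∩ V k)) ∪ ⋃ i, U0 i := by
      intro w hw
      obtain ⟨i, hi⟩ := mem_iUnion.1 (hEU hw.1)
      by_cases h : Metric.ediam (U i) = 0
      · right
        refine mem_iUnion.2 ⟨i, ?_⟩
        simp only [U0, h, if_true]
        exact hi
      · left
        exact mem_iUnion.2 ⟨κ (Metric.ediam (U i)).toReal, hw, mem_biUnion (show i ∈ G _ from ⟨h, rfl⟩) hi⟩
    have h1 : content id c (E ∩ L z) ≤ ENNReal.ofReal c := by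
      calc content id c (E ∩ L z) ≤ content id c ((⋃ k, (E ∩ L z ∩ V k)) ∪ ⋃ i, U0 i) := content_mono c hsub
        _ ≤ content id c (⋃ k, (E ∩ L z ∩ V k)) + content id c (⋃ i, U0 i) := content_union_le c hc _ _
        _ ≤ ∑' k, content id c (E ∩ L z ∩ V k) + 0 := by
            gcongr
            · exact content_iUnion_le c hc _
            · exact (content_eq_zero c hc U0 hU0).le
        _ ≤ ∑' k, ENNReal.ofReal (c / 2 ^ (k + 1)) := by
            rw [add_zero]
            exact ENNReal.tsum_le_tsum hlt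
        _ = ENNReal.ofReal c := by
            have h2 : ∀ k : ℕ, c / 2 ^ (k + 1) = c / 2 / 2 ^ k := by
              intro k
              rw [pow_succ]
              field_simp
            simp_rw [h2]
            rw [← ENNReal.ofReal_tsum_of_nonneg (fun k => by positivity) (summable_geometric_two' c),
              tsum_geometric_two' c]
    exact absurd hz' (not_lt.2 h1)
  have hSc : ∀ k, ∃ T : Finset Z, T.card ≤ m k ∧ S k ⊆ ⋃ z ∈ T, Metric.closedBall z (ρ k) := by
    intro k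
    refine cover_of_separated (S k) (ρ k) (hρ k).le (m k) fun T hTS hTsep => ?_
    by_contra hcard
    obtain ⟨T', hT'T, hT'card⟩ := Finset.exists_subset_card_eq (s := T) (n := m k + 1) (by omega)
    have hb : (ENNReal.ofReal (c / 2 ^ (k + 2))) ≠ ∞ := ENNReal.ofReal_ne_top
    have h1 := counting (W := W) (Z := Z) c (fun A B h => content_mono c h)
      (fun A B => content_union_le c hc A B) (fun T A => content_biUnion_le c hc T A) U
      (fun A I hA => content_le_of_cover c hc (fun i : I => U i) (by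
        intro w hw
        obtain ⟨i, hi, hwi⟩ := mem_iUnion₂.1 (hA hw)
        exact mem_iUnion.2 ⟨⟨i, hi⟩, hwi⟩) (fun i => hUc i)) (G k) (r k) (hGr k)
      (fun z => E ∩ L z) L (fun z => inter_subset_right) (ENNReal.ofReal (c / 2 ^ (k + 2)))
      (ENNReal.ofReal (η k)) hb T'
      (fun z hz => by
        have h2 : z ∈ S k := hTS (hT'T hz)
        refine le_trans (le_of_eq ?_) h2
        rw [show (2 : ℝ≥0∞) = ENNReal.ofReal 2 by simp, ← ENNReal.ofReal_mul (by norm_num)]
        congr 1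
        rw [pow_succ 2 (k + 1)]
        field_simp)
      (fun z hz z' hz' hne => hP k z z' (hTsep z (hT'T hz) z' (hT'T hz') hne))
      (by
        rw [hT'card, ← ENNReal.ofReal_natCast, ← ENNReal.ofReal_mul (by positivity)]
        apply ENNReal.ofReal_le_ofReal
        apply le_of_eq
        simp only [η]
        push_cast
        field_simp)
    have h2 := h1.trans (hGsum k)
    rw [hT'card, ← ENNReal.ofReal_natCast, ← ENNReal.ofReal_mul (by positivity),
      show (4 : ℝ≥0∞) ^ k = ENNReal.ofReal (4 ^ k) by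
        rw [ENNReal.ofReal_pow (by norm_num)]; simp,
      ENNReal.ofReal_le_ofReal_iff (by positivity)] at h2
    have h3 : 4 * 8 ^ k / c ≤ (m k : ℝ) := Nat.le_ceil _
    have h4 : (4 : ℝ) ^ k < ((m k + 1 : ℕ) : ℝ) * (c / 2 ^ (k + 2)) := by
      push_cast
      have h5 : (4 : ℝ) ^ k = (4 * 8 ^ k / c) * (c / 2 ^ (k + 2)) := by
        rw [show (8 : ℝ) ^ k = 4 ^ k * 2 ^ k by rw [← mul_pow]; norm_num, pow_add]
        field_simp
        norm_num
      rw [h5]
      have h6 : 0 < c / 2 ^ (k + 2) := by positivity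
      nlinarith
    linarith
  obtain ⟨B, hB, hSB⟩ := blocks ε hε m ρ hρε S hSc
  exact ⟨B, hB, hAS.trans hSB⟩

end Pool.Agent.H507_B
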