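import Mathlib
import Pool.Agent.H507_B.Defs
import Pool.Agent.H507_B.Main
import Pool.Agent.H507_B.Lines

/-!
# Applications: fibres of Lipschitz maps, lines, and the Borel conjecture
-/

set_option autoImplicit false

open Set Filter Topology
open scoped ENNReal NNReal

namespace Pool.Agent.H507_B

/-- `H_φ(E) = 0` for all superlinear gauges `φ`. -/
def NullSuper {W : Type*} [PseudoEMetricSpace W] (E : Set W) : Prop :=
  ∀ φ, Gauge φ → Superlinear φ → H φ E = 0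

/-- `E` is a countable union of sets of finite `H¹`-measure. -/
def SigmaFinite1 {W : Type*} [PseudoEMetricSpace W] (E : Set W) : Prop :=
  ∃ F : ℕ → Set W, E = ⋃ n, F n ∧ ∀ n, H id (F n) < ∞

/-- The B-sets of the problem. -/
def BSet (E : Set Plane) : Prop := ¬ SigmaFinite1 E ∧ NullSuper E

/-- Strong measure zero sets of reals, with intervals. -/
def SMZR (A : Set ℝ) : Prop :=
  ∀ ε : ℕ → ℝ, (∀ n, 0 < ε n) → ∃ a : ℕ → ℝ, A ⊆ ⋃ n, Icc (a n) (a n + ε n)

/-- The Borel conjecture. -/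
def BorelConjecture : Prop := ∀ A : Set ℝ, SMZR A → A.Countable

/-- The line `y = p.1 x + p.2`. -/
def slopeLine (p : ℝ × ℝ) : Set Plane := {w | w 1 = p.1 * w 0 + p.2}

/-- The vertical line through `(x, 0)`. -/
def vertLine (x : ℝ) : Set Plane := {w | w 0 = x}

/-- The lines of the plane. -/
def IsLine (ℓ : Set Plane) : Prop := (∃ p, ℓ = slopeLine p) ∨ ∃ x, ℓ = vertLine x

theorem H_mono {W : Type*} [PseudoEMetricSpace W] (φ : ℝ → ℝ) {A B : Set W} (h : A ⊆ B) :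
    H φ A ≤ H φ B := by
  refine iSup₂_mono fun δ hδ => ?_
  refine le_iInf fun U => le_iInf fun hU => le_iInf fun hd => ?_
  exact iInf_le_of_le U (iInf_le_of_le (h.trans hU) (iInf_le_of_le hd le_rfl))

theorem H_iUnion_le {W : Type*} [PseudoEMetricSpace W] (A : ℕ → Set W) :
    H id (⋃ k, A k) ≤ ∑' k, H id (A k) := by
  refine iSup₂_le fun δ hδ => (content_iUnion_le δ hδ A).trans ?_
  refine ENNReal.tsum_le_tsum fun k => ?_
  exact le_iSup₂_of_le δ hδ le_rfl

theorem smz_image {Z Z' : Type*} [PseudoEMetricSpace Z] [PseudoEMetricSpace Z'] {A : Set Z}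
    (h : SMZ A) (f : Z → Z') (K : ℝ≥0) (hf : LipschitzWith K f) : SMZ (f '' A) := by
  intro ε hε
  obtain ⟨B, hB, hAB⟩ := h (fun n => ε n / (K + 1)) (fun n => div_pos (hε n) (by positivity))
  refine ⟨fun n => f '' B n, fun n => ?_, ?_⟩
  · refine (hf.ediam_image_le (B n)).trans ?_
    calc (K : ℝ≥0∞) * Metric.ediam (B n) ≤ K * ENNReal.ofReal (ε n / (K + 1)) := by gcongr; exact hB n
      _ = ENNReal.ofReal (K * (ε n / (K + 1))) := by
          rw [ENNReal.ofReal_mul (by positivity), ENNReal.ofReal_coe_nnreal]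
      _ ≤ ENNReal.ofReal (ε n) := by
          apply ENNReal.ofReal_le_ofReal
          have hK : (0 : ℝ) ≤ K := K.2
          rw [mul_div_assoc', div_le_iff₀ (by positivity)]
          have := hε n
          nlinarith
  · rw [← image_iUnion]
    exact image_mono hAB

theorem smzr_of_smz {A : Set ℝ} (h : SMZ A) : SMZR A := by
  classical
  intro ε hε
  obtain ⟨B, hB, hAB⟩ := h (fun n => ε n / 2) (fun n => half_pos (hε n))
  refine ⟨fun n => if hn : (B n).Nonempty then hn.some - ε n / 2 else 0, fun x hx => ?_⟩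
  obtain ⟨n, hn⟩ := mem_iUnion.1 (hAB hx)
  refine mem_iUnion.2 ⟨n, ?_⟩
  have hne : (B n).Nonempty := ⟨x, hn⟩
  simp only [hne, dif_pos]
  have h1 : edist x hne.some ≤ ENNReal.ofReal (ε n / 2) :=
    (Metric.edist_le_ediam_of_mem hn hne.some_mem).trans (hB n)
  rw [edist_dist, ENNReal.ofReal_le_ofReal_iff (by have := hε n; positivity), Real.dist_eq, abs_le] at h1
  constructor <;> linarith [h1.1, h1.2]

theorem countable_of_smz (hBC : BorelConjecture) {A : Set ℝ} (h : SMZ A) : A.Countable :=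
  hBC A (smzr_of_smz h)

theorem countable_of_smz_prod (hBC : BorelConjecture) {A : Set (ℝ × ℝ)} (h : SMZ A) : A.Countable := by
  have h1 := countable_of_smz hBC (smz_image h Prod.fst 1 LipschitzWith.prod_fst)
  have h2 := countable_of_smz hBC (smz_image h Prod.snd 1 LipschitzWith.prod_snd)
  exact (h1.prod h2).mono fun p hp => mem_prod.2 ⟨mem_image_of_mem _ hp, mem_image_of_mem _ hp⟩

/-- The sets `L z` are uniformly separated: for parameters at distance more than `ρ`, the part of `L z` in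
the `r`-neighbourhood of `L z'` is small, uniformly in `z`, `z'`, if `r` is small. -/
def UniformlySeparated {W Z : Type*} [PseudoEMetricSpace W] [PseudoMetricSpace Z] (L : Z → Set W) : Prop :=
  ∀ δ > 0, ∀ ρ > 0, ∀ η > 0, ∃ r > 0, ∀ z z' : Z, ρ < dist z z' →
    content id δ (L z ∩ {w | ∃ w' ∈ L z', edist w w' ≤ ENNReal.ofReal r}) ≤ ENNReal.ofReal η

/-- Fibres of Lipschitz maps. -/
theorem fibres {W Z : Type*} [PseudoEMetricSpace W] [PseudoMetricSpace Z] (E : Set W)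
    (hE : NullSuper E) (f : W → Z) (K : ℝ≥0) (hf : LipschitzWith K f) :
    SMZ {z | 0 < H id (E ∩ f ⁻¹' {z})} := by
  refine main (fun z => f ⁻¹' {z}) (fun δ hδ ρ hρ η hη => ⟨ρ / (K + 1), by positivity, ?_⟩) E hE
  intro z z' hz
  have : (f ⁻¹' {z} ∩ {w | ∃ w' ∈ f ⁻¹' {z'}, edist w w' ≤ ENNReal.ofReal (ρ / (K + 1))}) = ∅ := by
    rw [eq_empty_iff_forall_notMem]
    rintro w ⟨hw, w', hw', hd⟩
    have hw1 : f w = z := hw
    have hw2 : f w' = z' := hw'
    have h1 : edist z z' ≤ ENNReal.ofReal ρ := by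
      rw [← hw1, ← hw2]
      calc edist (f w) (f w') ≤ K * edist w w' := hf w w'
        _ ≤ K * ENNReal.ofReal (ρ / (K + 1)) := by gcongr
        _ = ENNReal.ofReal (K * (ρ / (K + 1))) := by
            rw [ENNReal.ofReal_mul (by positivity), ENNReal.ofReal_coe_nnreal]
        _ ≤ ENNReal.ofReal ρ := by
            apply ENNReal.ofReal_le_ofReal
            have hK : (0 : ℝ) ≤ K := K.2
            rw [mul_div_assoc', div_le_iff₀ (by positivity)]
            nlinarith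
    rw [edist_dist, ENNReal.ofReal_le_ofReal_iff hρ.le] at h1
    linarith
  rw [this]
  refine (content_le_of_cover δ hδ (fun _ : Unit => (∅ : Set W)) (empty_subset _) (fun _ => ?_)).trans ?_
  · simpa using hδ
  · simp

/-- Lines that are not vertical. -/
theorem slope_lines (E : Set Plane) (hE : NullSuper E) :
    SMZ {p : ℝ × ℝ | 0 < H id (E ∩ slopeLine p)} := by
  let Zn : ℕ → Type := fun n => {p : ℝ × ℝ // |p.1| ≤ n ∧ |p.2| ≤ n}
  let L : ∀ n : ℕ, ℝ × ℝ → Set Plane := fun n z => {w : Plane | w 1 = z.1 * w 0 + z.2 ∧ |w 0| ≤ n}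
  have key : ∀ n : ℕ, SMZ {z : {p : ℝ × ℝ // |p.1| ≤ n ∧ |p.2| ≤ n} | 0 < H id (E ∩ L n z.1)} := by
    intro n
    refine main (Z := {p : ℝ × ℝ // |p.1| ≤ n ∧ |p.2| ≤ n}) (fun z => L n z.1) (fun δ hδ ρ hρ η hη => ?_) E hE
    obtain ⟨r, hr, h⟩ := line_sep n ρ hρ (min η (δ / 2)) (lt_min hη (half_pos hδ))
    refine ⟨r, hr, fun z z' hz => ?_⟩
    have h1 := h z.1 z'.1 z.2.1 z.2.2 z'.2.1 z'.2.2 hz
    refine (content_le_of_cover δ hδ (fun _ : Unit => (L n z.1 ∩
      {w | ∃ w' ∈ L n z'.1, edist w w' ≤ ENNReal.ofReal r})) (subset_iUnion (fun _ : Unit => (L n z.1 ∩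
      {w | ∃ w' ∈ L n z'.1, edist w w' ≤ ENNReal.ofReal r})) ()) (fun _ => ?_)).trans ?_
    · refine h1.trans_lt ((ENNReal.ofReal_lt_ofReal_iff hδ).2 ?_)
      exact (min_le_right _ _).trans_lt (half_lt_self hδ)
    · simp only [tsum_fintype, Finset.univ_unique, Finset.sum_singleton]
      exact h1.trans (ENNReal.ofReal_le_ofReal (min_le_left _ _))
  refine smz_mono (smz_iUnion (fun n => Subtype.val ''
    {z : {p : ℝ × ℝ // |p.1| ≤ n ∧ |p.2| ≤ n} | 0 < H id (E ∩ L n z.1)})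
    fun n => smz_image (key n) _ 1
      (LipschitzWith.subtype_val {p : ℝ × ℝ | |p.1| ≤ n ∧ |p.2| ≤ n})) ?_
  intro p hp
  have hp' : 0 < H id (E ∩ slopeLine p) := hp
  have h1 : E ∩ slopeLine p = ⋃ n : ℕ, (E ∩ L n p) := by
    ext w
    constructor
    · rintro ⟨h1, h2⟩
      obtain ⟨n, hn⟩ := exists_nat_ge |w 0|
      exact mem_iUnion.2 ⟨n, h1, h2, hn⟩
    · intro h
      obtain ⟨n, h1, h2, -⟩ := mem_iUnion.1 h
      exact ⟨h1, h2⟩
  obtain ⟨n, hn⟩ : ∃ n : ℕ, 0 < H id (E ∩ L n p) := by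
    by_contra hcon
    push Not at hcon
    have h2 := H_iUnion_le (fun n : ℕ => E ∩ L n p)
    rw [← h1] at h2
    have h3 : ∑' n : ℕ, H id (E ∩ L n p) = 0 := by
      rw [ENNReal.tsum_eq_zero]
      intro n
      exact le_antisymm (hcon n) bot_le
    rw [h3] at h2
    exact absurd hp' (not_lt.2 h2)
  obtain ⟨N, hN⟩ := exists_nat_ge (max (n : ℝ) (max |p.1| |p.2|))
  have hNn : (n : ℝ) ≤ N := (le_max_left _ _).trans hN
  have hN1 : |p.1| ≤ N := ((le_max_left _ _).trans (le_max_right _ _)).trans hN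
  have hN2 : |p.2| ≤ N := ((le_max_right _ _).trans (le_max_right _ _)).trans hN
  refine mem_iUnion.2 ⟨N, ⟨p, hN1, hN2⟩, ?_, rfl⟩
  refine lt_of_lt_of_le hn (H_mono id ?_)
  rintro w ⟨hwE, hw1, hw2⟩
  exact ⟨hwE, hw1, hw2.trans hNn⟩

theorem vert_lines (E : Set Plane) (hE : NullSuper E) : SMZ {x : ℝ | 0 < H id (E ∩ vertLine x)} := by
  have h1 : LipschitzWith 1 (fun w : Plane => w 0) := by
    refine LipschitzWith.of_dist_le_mul fun w w' => ?_
    rw [NNReal.coe_one, one_mul, Real.dist_eq, dist_eq_norm]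
    simpa using PiLp.norm_apply_le (w - w') 0
  exact fibres E hE (fun w : Plane => w 0) 1 h1

theorem countable_lines (hBC : BorelConjecture) (E : Set Plane) (hE : NullSuper E) :
    {ℓ : Set Plane | IsLine ℓ ∧ 0 < H id (E ∩ ℓ)}.Countable := by
  have h1 := (countable_of_smz_prod hBC (slope_lines E hE)).image slopeLine
  have h2 := (countable_of_smz hBC (vert_lines E hE)).image vertLine
  refine (h1.union h2).mono ?_
  rintro ℓ ⟨⟨p, rfl⟩ | ⟨x, rfl⟩, hℓ⟩
  · exact Or.inl ⟨p, hℓ, rfl⟩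
  · exact Or.inr ⟨x, hℓ, rfl⟩

theorem SigmaFinite1.of_countable {W ι : Type*} [PseudoEMetricSpace W] [Countable ι] {E : Set W}
    (F : ι → Set W) (h1 : E ⊆ ⋃ i, F i) (h2 : ∀ i, H id (F i) < ∞) (hne : Nonempty ι) :
    SigmaFinite1 E := by
  obtain ⟨e, he⟩ := exists_surjective_nat ι
  refine ⟨fun n => E ∩ F (e n), ?_, fun n => (H_mono id inter_subset_right).trans_lt (h2 _)⟩
  rw [← inter_iUnion]
  refine (inter_eq_left.2 (h1.trans ?_)).symm
  intro w hw
  obtain ⟨i, hi⟩ := mem_iUnion.1 hw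
  obtain ⟨n, rfl⟩ := he i
  exact mem_iUnion.2 ⟨n, hi⟩

theorem exists_null_on_lines (hBC : BorelConjecture) (h : ∃ E, BSet E) :
    ∃ E, BSet E ∧ ∀ ℓ, IsLine ℓ → H id (E ∩ ℓ) = 0 := by
  obtain ⟨E, hE1, hE2⟩ := h
  set C : Set (Set Plane) := {ℓ : Set Plane | IsLine ℓ ∧ 0 < H id (E ∩ ℓ)} with hC
  have hCc : C.Countable := countable_lines hBC E hE2
  have : Countable C := hCc
  refine ⟨E \ ⋃₀ C, ⟨?_, ?_⟩, ?_⟩
  · rintro ⟨F, hF, hF'⟩
    apply hE1
    have hline : ∀ ℓ : C, ∃ G : ℕ → Set Plane, ℓ.1 ⊆ ⋃ n, G n ∧ ∀ n, H id (G n) < ∞ := by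
      rintro ⟨ℓ, hℓ, -⟩
      apply line_sigma_finite
      rcases hℓ with ⟨p, rfl⟩ | ⟨x, rfl⟩
      · exact Or.inl ⟨p.1, p.2, rfl⟩
      · exact Or.inr ⟨x, rfl⟩
    choose G hG hG' using hline
    refine SigmaFinite1.of_countable (ι := ℕ ⊕ (C × ℕ))
      (Sum.elim F (fun q => G q.1 q.2)) ?_ ?_ ⟨Sum.inl 0⟩
    · intro w hw
      by_cases hwC : w ∈ ⋃₀ C
      · obtain ⟨ℓ, hℓ, hwℓ⟩ := hwC
        obtain ⟨n, hn⟩ := mem_iUnion.1 (hG ⟨ℓ, hℓ⟩ hwℓ)
        exact mem_iUnion.2 ⟨Sum.inr (⟨ℓ, hℓ⟩, n), hn⟩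
      · have : w ∈ ⋃ n, F n := by rw [← hF]; exact ⟨hw, hwC⟩
        obtain ⟨n, hn⟩ := mem_iUnion.1 this
        exact mem_iUnion.2 ⟨Sum.inl n, hn⟩
    · rintro (n | q)
      · exact hF' n
      · exact hG' _ _
  · intro φ h1 h2
    refine le_antisymm ?_ bot_le
    rw [← hE2 φ h1 h2]
    exact H_mono φ sdiff_subset
  · intro ℓ hℓ
    by_cases hpos : 0 < H id (E ∩ ℓ)
    · have : (E \ ⋃₀ C) ∩ ℓ = ∅ := by
        rw [eq_empty_iff_forall_notMem]
        rintro w ⟨⟨-, hw⟩, hwℓ⟩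
        exact hw ⟨ℓ, ⟨hℓ, hpos⟩, hwℓ⟩
      rw [this]
      refine le_antisymm ?_ bot_le
      refine iSup₂_le fun δ hδ => ?_
      refine (content_le_of_cover δ hδ (fun _ : Unit => (∅ : Set Plane)) (empty_subset _)
        (fun _ => ?_)).trans ?_
      · simpa using hδ
      · simp
    · refine le_antisymm ?_ bot_le
      exact (H_mono id (inter_subset_inter_left _ sdiff_subset)).trans (not_lt.1 hpos)

end Pool.Agent.H507_B
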