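import Mathlib
import Pool.Agent.H507_B.Defs
import Pool.Agent.H507_B.Lines

/-!
# Products of a strong measure zero set and the unit interval
-/

set_option autoImplicit false

open Set Filter Topology
open scoped ENNReal NNReal

namespace Pool.Agent.H507_B



theorem cell_diam (a e b : ℝ) (he : 0 < e) :
    Metric.ediam {w : Plane | w 0 ∈ Icc a (a + e) ∧ w 1 ∈ Icc b (b + e)} ≤
      ENNReal.ofReal (2 * e) := by
  apply Metric.ediam_le
  intro x hx y hy
  rw [edist_dist]
  apply ENNReal.ofReal_le_ofReal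
  obtain ⟨⟨x1, x2⟩, ⟨x3, x4⟩⟩ := hx
  obtain ⟨⟨y1, y2⟩, ⟨y3, y4⟩⟩ := hy
  rw [EuclideanSpace.dist_eq, Real.sqrt_le_left (by positivity), Fin.sum_univ_two, Real.dist_eq,
    Real.dist_eq, sq_abs, sq_abs]
  have h1 : (x 0 - y 0) ^ 2 ≤ e ^ 2 := by
    apply sq_le_sq'
    · linarith
    · linarith
  have h2 : (x 1 - y 1) ^ 2 ≤ e ^ 2 := by
    apply sq_le_sq'
    · linarith
    · linarith
  nlinarith [sq_nonneg e]

theorem nullSuper_prod (X : Set ℝ)
    (hX : ∀ ε : ℕ → ℝ, (∀ n, 0 < ε n) → ∃ a : ℕ → ℝ, X ⊆ ⋃ n, Icc (a n) (a n + ε n))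
    (φ : ℝ → ℝ) (hφ : Gauge φ) (hφs : Superlinear φ) :
    H φ {w : Plane | w 0 ∈ X ∧ w 1 ∈ Icc (0 : ℝ) 1} = 0 := by
  have main : ∀ δ : ℝ, 0 < δ → content φ δ {w : Plane | w 0 ∈ X ∧ w 1 ∈ Icc (0 : ℝ) 1} = 0 := by
    intro δ hδ
    rw [← nonpos_iff_eq_zero]
    apply ENNReal.le_of_forall_pos_le_add
    intro e he _
    rw [zero_add]
    have he' : (0 : ℝ) < e := by exact_mod_cast he
    have hε : ∀ n : ℕ, ∃ ε : ℝ, 0 < ε ∧ ε < 1 ∧ 2 * ε < δ ∧
        φ (2 * ε) ≤ (e / 2 ^ (n + 4)) * (2 * ε) := by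
      intro n
      have hc : (0 : ℝ) < e / 2 ^ (n + 4) := by positivity
      have h1 : ∀ᶠ t in 𝓝[>] (0 : ℝ), φ t / t < e / 2 ^ (n + 4) :=
        hφs.eventually (gt_mem_nhds hc)
      obtain ⟨t0, ht0, hsub⟩ := mem_nhdsGT_iff_exists_Ioo_subset.1 h1
      have ht0' : (0 : ℝ) < t0 := ht0
      refine ⟨min (min (t0 / 4) (δ / 4)) (1 / 2), ?_, ?_, ?_, ?_⟩
      · positivity
      · have := min_le_right (min (t0 / 4) (δ / 4)) (1 / 2)
        linarith
      · have := (min_le_left (min (t0 / 4) (δ / 4)) (1 / 2)).trans (min_le_right _ _)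
        linarith
      · set ε := min (min (t0 / 4) (δ / 4)) (1 / 2) with hεd
        have hε0 : 0 < ε := by positivity
        have h2 : ε ≤ t0 / 4 :=
          (min_le_left (min (t0 / 4) (δ / 4)) (1 / 2)).trans (min_le_left _ _)
        have h3 : φ (2 * ε) / (2 * ε) < e / 2 ^ (n + 4) := hsub ⟨by linarith, by linarith⟩
        rw [div_lt_iff₀ (by linarith)] at h3
        exact h3.le
    choose ε h0 h1 h2 h3 using hε
    obtain ⟨a, ha⟩ := hX ε h0
    set N : ℕ → ℕ := fun n => ⌈1 / ε n⌉₊ + 1 with hN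
    set U : ℕ → Set Plane := fun m =>
      if m.unpair.2 < N m.unpair.1 then
        {w : Plane | w 0 ∈ Icc (a m.unpair.1) (a m.unpair.1 + ε m.unpair.1) ∧
          w 1 ∈ Icc ((m.unpair.2 : ℝ) * ε m.unpair.1)
            ((m.unpair.2 : ℝ) * ε m.unpair.1 + ε m.unpair.1)}
      else ∅ with hU
    have hcov : {w : Plane | w 0 ∈ X ∧ w 1 ∈ Icc (0 : ℝ) 1} ⊆ ⋃ i, U i := by
      rintro w ⟨hw0, hw1, hw2⟩
      obtain ⟨n, hn⟩ := mem_iUnion.1 (ha hw0)
      rw [mem_iUnion]
      refine ⟨Nat.pair n ⌊w 1 / ε n⌋₊, ?_⟩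
      have hk1 : (⌊w 1 / ε n⌋₊ : ℝ) ≤ w 1 / ε n := Nat.floor_le (div_nonneg hw1 (h0 n).le)
      have hk2 : w 1 / ε n < ⌊w 1 / ε n⌋₊ + 1 := Nat.lt_floor_add_one _
      have hk3 : ⌊w 1 / ε n⌋₊ < N n := by
        have : (⌊w 1 / ε n⌋₊ : ℝ) < (N n : ℝ) := by
          have a1 : w 1 / ε n ≤ 1 / ε n := div_le_div_of_nonneg_right hw2 (h0 n).le
          have a2 := Nat.le_ceil (1 / ε n)
          simp only [hN]
          push_cast
          linarith
        exact_mod_cast this
      simp only [hU, Nat.unpair_pair]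
      rw [if_pos hk3]
      refine ⟨hn, ?_, ?_⟩
      · rwa [le_div_iff₀ (h0 n)] at hk1
      · rw [div_lt_iff₀ (h0 n)] at hk2
        linarith
    have hdiam : ∀ m : ℕ, Metric.ediam (U m) ≤
        if m.unpair.2 < N m.unpair.1 then ENNReal.ofReal (2 * ε m.unpair.1) else 0 := by
      intro m
      simp only [hU]
      split_ifs with hm
      · exact cell_diam _ _ _ (h0 _)
      · simp
    have hlt : ∀ m : ℕ, Metric.ediam (U m) < ENNReal.ofReal δ := by
      intro m
      refine (hdiam m).trans_lt ?_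
      split_ifs with hm
      · exact (ENNReal.ofReal_lt_ofReal_iff hδ).2 (h2 _)
      · exact ENNReal.ofReal_pos.2 hδ
    have hcost : content φ δ {w : Plane | w 0 ∈ X ∧ w 1 ∈ Icc (0 : ℝ) 1} ≤
        ∑' i, ENNReal.ofReal (φ (Metric.ediam (U i)).toReal) :=
      iInf_le_of_le U (iInf_le_of_le hcov (iInf_le_of_le hlt le_rfl))
    refine hcost.trans ?_
    set g : ℕ × ℕ → ℝ≥0∞ := fun q => if q.2 < N q.1 then ENNReal.ofReal (φ (2 * ε q.1)) else 0
      with hg
    have hterm : ∀ m : ℕ, ENNReal.ofReal (φ (Metric.ediam (U m)).toReal) ≤ g m.unpair := by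
      intro m
      have hd := hdiam m
      simp only [hg]
      split_ifs with hm
      · rw [if_pos hm] at hd
        apply ENNReal.ofReal_le_ofReal
        have h5 : 0 ≤ 2 * ε m.unpair.1 := by linarith [h0 m.unpair.1]
        apply hφ.1
        · exact ENNReal.toReal_nonneg
        · exact h5
        · exact ENNReal.toReal_le_of_le_ofReal h5 hd
      · rw [if_neg hm] at hd
        rw [nonpos_iff_eq_zero.1 hd, ENNReal.toReal_zero, hφ.2.1, ENNReal.ofReal_zero]
    refine (ENNReal.tsum_le_tsum hterm).trans ?_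
    have e1 : ∑' m : ℕ, g m.unpair = ∑' q : ℕ × ℕ, g q :=
      Nat.pairEquiv.symm.tsum_eq g
    rw [e1, ENNReal.tsum_prod']
    have e2 : ∀ n : ℕ, ∑' k : ℕ, g (n, k) ≤ ENNReal.ofReal ((e : ℝ) / 2 / 2 ^ n) := by
      intro n
      have e3 : ∑' k : ℕ, g (n, k) = ∑ k ∈ Finset.range (N n), g (n, k) := by
        apply tsum_eq_sum
        intro k hk
        rw [Finset.mem_range] at hk
        simp only [hg]
        rw [if_neg hk]
      have e4 : ∑ k ∈ Finset.range (N n), g (n, k) =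
          (N n : ℝ≥0∞) * ENNReal.ofReal (φ (2 * ε n)) := by
        rw [Finset.sum_congr rfl (g := fun _ => ENNReal.ofReal (φ (2 * ε n)))]
        · rw [Finset.sum_const, Finset.card_range, nsmul_eq_mul]
        · intro k hk
          rw [Finset.mem_range] at hk
          simp only [hg]
          rw [if_pos hk]
      rw [e3, e4, ← ENNReal.ofReal_natCast, ← ENNReal.ofReal_mul (by positivity)]
      apply ENNReal.ofReal_le_ofReal
      have hεn := h0 n
      have f1 : (N n : ℝ) ≤ 3 / ε n := by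
        have a2 := (Nat.ceil_lt_add_one (by positivity : 0 ≤ 1 / ε n)).le
        have a3 : 1 ≤ 1 / ε n := by
          rw [le_div_iff₀ hεn]
          linarith [h1 n]
        have a4 : 3 / ε n = 1 / ε n + 2 * (1 / ε n) := by ring
        simp only [hN]
        push_cast
        linarith
      have f2 : 0 ≤ φ (2 * ε n) := (hφ.2.2 _ (by linarith)).le
      calc (N n : ℝ) * φ (2 * ε n) ≤ (3 / ε n) * ((e / 2 ^ (n + 4)) * (2 * ε n)) :=
            mul_le_mul f1 (h3 n) f2 (by positivity)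
        _ = (6 / 16) * (e / 2 ^ n) := by
            field_simp
            ring
        _ ≤ (e : ℝ) / 2 / 2 ^ n := by
            have : (e : ℝ) / 2 / 2 ^ n = (1 / 2) * (e / 2 ^ n) := by ring
            rw [this]
            apply mul_le_mul_of_nonneg_right (by norm_num)
            positivity
    refine (ENNReal.tsum_le_tsum e2).trans ?_
    rw [← ENNReal.ofReal_tsum_of_nonneg (fun n => by positivity) (summable_geometric_two' _),
      tsum_geometric_two', ENNReal.ofReal_coe_nnreal]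
  unfold H
  simp only [ENNReal.iSup_eq_zero]
  exact main


/-- PROOF. `H id A ≥ content id 1 A`. Let `U` be a cover of `A` with `ediam (U i) < 1` (so finite). The images `(fun w => w 1) '' U i` cover
`Icc 0 1`, so `1 = volume (Icc 0 1) ≤ ∑' i, volume ((fun w => w 1) '' U i) ≤ ∑' i, ediam ((fun w => w 1) '' U i) ≤ ∑' i, ediam (U i)`
(`Real.volume_le_diam` or `Real.volume_le_ediam`-like lemma; the coordinate is 1-Lipschitz), and `ENNReal.ofReal (id x.toReal) = x` for finite `x`.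
So `content id 1 A ≥ 1 > 0`. -/
theorem H_segment_pos (x : ℝ) : 0 < H id {w : Plane | w 0 = x ∧ w 1 ∈ Icc (0 : ℝ) 1} := by
  have hlip : LipschitzWith 1 (fun w : Plane => w 1) := by
    refine LipschitzWith.of_dist_le_mul fun v w => ?_
    rw [NNReal.coe_one, one_mul, dist_eq_norm, dist_eq_norm]
    exact PiLp.norm_apply_le (v - w) 1
  have key : (1 : ℝ≥0∞) ≤ content id 1 {w : Plane | w 0 = x ∧ w 1 ∈ Icc (0 : ℝ) 1} := by
    refine le_iInf fun U => le_iInf fun hU => le_iInf fun hd => ?_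
    have hcov : Icc (0 : ℝ) 1 ⊆ ⋃ i, (fun w : Plane => w 1) '' U i := by
      intro t ht
      have hm : (WithLp.toLp 2 ![x, t] : Plane) ∈ {w : Plane | w 0 = x ∧ w 1 ∈ Icc (0 : ℝ) 1} := by
        refine ⟨by simp, ?_⟩
        simpa using ht
      obtain ⟨i, hi⟩ := mem_iUnion.1 (hU hm)
      exact mem_iUnion.2 ⟨i, _, hi, by simp⟩
    calc (1 : ℝ≥0∞) = MeasureTheory.volume (Icc (0 : ℝ) 1) := by rw [Real.volume_Icc]; simp
      _ ≤ MeasureTheory.volume (⋃ i, (fun w : Plane => w 1) '' U i) := MeasureTheory.measure_mono hcov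
      _ ≤ ∑' i, MeasureTheory.volume ((fun w : Plane => w 1) '' U i) := MeasureTheory.measure_iUnion_le _
      _ ≤ ∑' i, ENNReal.ofReal (id (Metric.ediam (U i)).toReal) := by
        refine ENNReal.tsum_le_tsum fun i => ?_
        have hfin : Metric.ediam (U i) ≠ ⊤ := ((hd i).trans_le le_top).ne
        have h1 : MeasureTheory.volume ((fun w : Plane => w 1) '' U i) ≤
            Metric.ediam ((fun w : Plane => w 1) '' U i) := Real.volume_le_diam _
        have h2 : Metric.ediam ((fun w : Plane => w 1) '' U i) ≤ Metric.ediam (U i) := by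
          have := hlip.ediam_image_le (U i)
          simpa using this
        rw [id, ENNReal.ofReal_toReal hfin]
        exact h1.trans h2
  have h3 : content id 1 {w : Plane | w 0 = x ∧ w 1 ∈ Icc (0 : ℝ) 1} ≤
      H id {w : Plane | w 0 = x ∧ w 1 ∈ Icc (0 : ℝ) 1} :=
    le_iSup₂ (f := fun (δ : ℝ) (_ : 0 < δ) => content id δ {w : Plane | w 0 = x ∧ w 1 ∈ Icc (0 : ℝ) 1})
      1 one_pos
  exact lt_of_lt_of_le one_pos (key.trans h3)

end Pool.Agent.H507_B
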