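import Mathlib
import Pool.Agent.H507_B.Apply
import Pool.Agent.H507_B.Product

/-!
# The Borel conjecture is equivalent to a statement on sections
-/

set_option autoImplicit false

open Set Filter Topology
open scoped ENNReal NNReal

namespace Pool.Agent.H507_B

theorem borelConjecture_iff : BorelConjecture ↔ ∀ E : Set Plane, NullSuper E →
    {ℓ : Set Plane | IsLine ℓ ∧ 0 < H id (E ∩ ℓ)}.Countable := by
  refine ⟨fun h E hE => countable_lines h E hE, fun h A hA => ?_⟩
  have h1 := h {w : Plane | w 0 ∈ A ∧ w 1 ∈ Icc (0 : ℝ) 1}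
    (fun φ hφ hφs => nullSuper_prod A hA φ hφ hφs)
  have hinj : Function.Injective vertLine := by
    intro x y hxy
    have h2 : (!₂[x, 0] : Plane) ∈ vertLine x := by simp [vertLine]
    rw [hxy] at h2
    simpa [vertLine] using h2
  refine (h1.preimage hinj).mono fun x hx => ?_
  refine ⟨Or.inr ⟨x, rfl⟩, (H_segment_pos x).trans_le (H_mono id ?_)⟩
  rintro w ⟨hw0, hw1⟩
  refine ⟨⟨?_, hw1⟩, hw0⟩
  rw [hw0]
  exact hx

end Pool.Agent.H507_B
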